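import Mathlib
import Pool.Agent.TH66.SG.Tup3

/-!
# Upper bounds for the number of tuples of primes in classes modulo `Q`
-/

set_option autoImplicit false

namespace Pool.Agent.TH66.HF

open Finset Filter Topology
open Pool.Agent.TH66.SG

open Classical in
theorem tup_equi (k Q : ℕ) (hQpos : 0 < Q) (A : (Fin (k + 1) → ZMod Q) → Prop) (ε : ℝ) (hε : 0 < ε) :
    haveI : NeZero Q := ⟨hQpos.ne'⟩
    ∃ X₀ : ℕ, ∀ X : ℕ, X₀ ≤ X →
      (((LL (k + 1) X).filter (fun l => A (fun i => (l i : ZMod Q)))).card : ℝ) ≤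
        ((24 / (Nat.totient Q : ℝ)) ^ (k + 1) *
          (((univ : Finset (Fin (k + 1) → ZMod Q)).filter (fun d => (∀ i, IsUnit (d i)) ∧ A d)).card : ℝ) +
          ε) * NN (k + 1) X := by
  have : NeZero Q := ⟨hQpos.ne'⟩
  have hφpos : (0 : ℝ) < Nat.totient Q := by exact_mod_cast Nat.totient_pos.mpr hQpos
  -- the weight of the classes which are not reduced
  obtain ⟨δ, hδ, hδ2⟩ : ∃ δ : ℝ, 0 < δ ∧ (24 + Q * δ) ^ (k + 1) - 24 ^ (k + 1) ≤ ε / 2 := by
    have hcont : Tendsto (fun δ : ℝ => (24 + Q * δ) ^ (k + 1) - 24 ^ (k + 1)) (𝓝[>] 0) (𝓝 0) := by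
      have h1 : Tendsto (fun δ : ℝ => (24 + Q * δ) ^ (k + 1) - 24 ^ (k + 1)) (𝓝 0)
          (𝓝 ((24 + Q * (0 : ℝ)) ^ (k + 1) - 24 ^ (k + 1))) := by
        apply Continuous.tendsto
        fun_prop
      rw [mul_zero, add_zero, sub_self] at h1
      exact h1.mono_left nhdsWithin_le_nhds
    have h2 := (hcont.eventually (ge_mem_nhds (by positivity : (0 : ℝ) < ε / 2))).and
      self_mem_nhdsWithin
    obtain ⟨δ, h3, h4⟩ := h2.exists
    exact ⟨δ, h4, h3⟩
  set cls : ℕ → ZMod Q := fun n => (n : ZMod Q) with hcls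
  set κ₁ : ZMod Q → ℝ := fun c => if IsUnit c then 24 / Nat.totient Q else 0 with hκ₁
  set κ : ZMod Q → ℝ := fun c => if IsUnit c then 24 / Nat.totient Q else δ with hκ
  have hκ1 : ∀ c, κ₁ c ≤ κ c := by
    intro c
    simp only [hκ₁, hκ]
    split_ifs
    · exact le_rfl
    · exact hδ.le
  have hκ₁0 : ∀ c, 0 ≤ κ₁ c := by
    intro c
    simp only [hκ₁]
    split_ifs
    · positivity
    · exact le_rfl
  have hκ0 : ∀ c, 0 ≤ κ c := fun c => (hκ₁0 c).trans (hκ1 c)
  -- the distribution of the primes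
  have hDist : Dist cls κ := by
    obtain ⟨N₁, hN₁⟩ := Pool.Agent.TH888.B1.primes_in_classes
    obtain ⟨N₂, hN₂⟩ := Pool.Agent.TH888.B1.pi_lower
    have hlim : Tendsto (fun N : ℕ => δ * (Nat.primeCounting N : ℝ)) atTop atTop :=
      (tendsto_natCast_atTop_atTop.comp Nat.tendsto_primeCounting).const_mul_atTop hδ
    obtain ⟨N₃, hN₃⟩ := eventually_atTop.mp
      (hlim.eventually_ge_atTop (Q.primeFactors.card : ℝ))
    refine ⟨N₁ * Q + Q ^ 2 + N₂ + N₃ + 4, fun X hX c => ?_⟩
    simp only [hκ]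
    by_cases hcu : IsUnit c
    · rw [if_pos hcu]
      have h1 := hN₁ Q {c.val} hQpos X (by omega) (by omega) (by omega)
      have h2 := hN₂ X (by omega)
      rw [← card_PP] at h2
      have h3 : (PP X).filter (fun p => cls p = c) ⊆
          (range (X + 1)).filter (fun p : ℕ => p.Prime ∧ p % Q ∈ ({c.val} : Finset ℕ)) := by
        intro p hp
        rw [mem_filter, mem_PP] at hp
        rw [mem_filter, mem_range, mem_singleton]
        refine ⟨by omega, hp.1.1, ?_⟩
        rw [← hp.2, hcls]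
        simp only
        rw [ZMod.val_natCast]
      have h4 : (((PP X).filter (fun p => cls p = c)).card : ℝ) ≤
          12 * ((1 : ℝ) / Nat.totient Q) * (X / Real.log X) := by
        refine le_trans (by exact_mod_cast card_le_card h3) (h1.trans (le_of_eq ?_))
        rw [card_singleton, Nat.cast_one]
      calc (((PP X).filter (fun p => cls p = c)).card : ℝ)
          ≤ 12 * ((1 : ℝ) / Nat.totient Q) * (X / Real.log X) := h4
        _ ≤ 12 * ((1 : ℝ) / Nat.totient Q) * (2 * (PP X).card) :=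
            mul_le_mul_of_nonneg_left h2 (by positivity)
        _ = 24 / Nat.totient Q * (PP X).card := by ring
    · rw [if_neg hcu]
      have h3 : (PP X).filter (fun p => cls p = c) ⊆ Q.primeFactors := by
        intro p hp
        rw [mem_filter, mem_PP] at hp
        have h4 : ¬ Nat.Coprime p Q := by
          intro h
          apply hcu
          rw [← hp.2]
          exact (ZMod.isUnit_iff_coprime p Q).2 h
        have h5 : p ∣ Q := by
          by_contra h6
          exact h4 ((Nat.Prime.coprime_iff_not_dvd hp.1.1).2 h6)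
        exact Nat.mem_primeFactors.2 ⟨hp.1.1, h5, hQpos.ne'⟩
      have h4 := hN₃ X (by omega)
      rw [← card_PP] at h4
      exact le_trans (by exact_mod_cast card_le_card h3) h4
  -- the function
  set G : (Fin (k + 1) → ZMod Q) → ℝ := fun d => if A d then 1 else 0 with hG
  have hG0 : ∀ d, 0 ≤ G d := by
    intro d
    simp only [hG]
    split_ifs <;> norm_num
  have hG1 : ∀ d, G d ≤ 1 := by
    intro d
    simp only [hG]
    split_ifs <;> norm_num
  have hmu : mu κ G ≤ (24 / (Nat.totient Q : ℝ)) ^ (k + 1) *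
          (((univ : Finset (Fin (k + 1) → ZMod Q)).filter
            (fun d => (∀ i, IsUnit (d i)) ∧ A d)).card : ℝ) + ε / 2 := by
    have h1 : mu κ G ≤ ∑ d : Fin (k + 1) → ZMod Q, (∏ i, κ₁ (d i)) * G d +
        ∑ d : Fin (k + 1) → ZMod Q, (∏ i, κ (d i) - ∏ i, κ₁ (d i)) := by
      rw [← Finset.sum_add_distrib, mu]
      refine Finset.sum_le_sum fun d _ => ?_
      have h2 : ∏ i, κ₁ (d i) ≤ ∏ i, κ (d i) :=
        Finset.prod_le_prod (fun i _ => hκ₁0 _) (fun i _ => hκ1 _)
      nlinarith [hG0 d, hG1 d]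
    have hcardu : (((univ : Finset (ZMod Q)).filter (fun c => IsUnit c)).card : ℝ) =
        Nat.totient Q := by
      have h2 : ((univ : Finset (ZMod Q)).filter (fun c => IsUnit c)).card =
          Fintype.card (ZMod Q)ˣ := by
        rw [← card_univ, ← card_image_of_injective (univ : Finset (ZMod Q)ˣ)
          (f := fun u : (ZMod Q)ˣ => (u : ZMod Q)) Units.val_injective]
        congr 1
        ext x
        rw [mem_filter, mem_image]
        constructor
        · rintro ⟨_, u, hu⟩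
          exact ⟨u, mem_univ _, hu⟩
        · rintro ⟨u, _, hu⟩
          exact ⟨mem_univ _, u, hu⟩
      rw [h2, ZMod.card_units_eq_totient]
    have hs1 : ∑ c, κ₁ c = 24 := by
      simp only [hκ₁]
      rw [← Finset.sum_filter, sum_const, nsmul_eq_mul, hcardu]
      field_simp
    have hs2 : ∑ c, κ c ≤ 24 + Q * δ := by
      have h2 : ∀ c, κ c ≤ κ₁ c + δ := by
        intro c
        simp only [hκ₁, hκ]
        split_ifs <;> linarith
      calc ∑ c, κ c ≤ ∑ c, (κ₁ c + δ) := Finset.sum_le_sum fun c _ => h2 c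
        _ = 24 + Q * δ := by
          rw [Finset.sum_add_distrib, hs1, sum_const, nsmul_eq_mul, card_univ, ZMod.card]
    have h2 : ∑ d : Fin (k + 1) → ZMod Q, (∏ i, κ (d i) - ∏ i, κ₁ (d i)) ≤ ε / 2 := by
      rw [Finset.sum_sub_distrib, ← Fintype.sum_pow, ← Fintype.sum_pow, hs1]
      refine le_trans ?_ hδ2
      have h3 : (∑ c, κ c) ^ (k + 1) ≤ (24 + Q * δ) ^ (k + 1) :=
        pow_le_pow_left₀ (Finset.sum_nonneg fun c _ => hκ0 c) hs2 _
      linarith
    have h4 : ∑ d : Fin (k + 1) → ZMod Q, (∏ i, κ₁ (d i)) * G d =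
        (24 / Nat.totient Q) ^ (k + 1) *
        (((univ : Finset (Fin (k + 1) → ZMod Q)).filter (fun d => (∀ i, IsUnit (d i)) ∧
          A d)).card : ℝ) := by
      rw [mul_comm ((24 / (Nat.totient Q : ℝ)) ^ (k + 1)), ← nsmul_eq_mul, ← sum_const,
        Finset.sum_filter]
      refine Finset.sum_congr rfl fun d _ => ?_
      by_cases hu : ∀ i, IsUnit (d i)
      · have h5 : ∏ i, κ₁ (d i) = (24 / (Nat.totient Q : ℝ)) ^ (k + 1) := by
          rw [Finset.prod_congr rfl (g := fun _ => 24 / (Nat.totient Q : ℝ)), prod_const,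
            card_univ, Fintype.card_fin]
          intro i _
          simp only [hκ₁]
          rw [if_pos (hu i)]
        rw [h5]
        simp only [hG]
        by_cases hw : A d
        · rw [if_pos hw, if_pos ⟨hu, hw⟩, mul_one]
        · rw [if_neg hw, if_neg (fun h => hw h.2), mul_zero]
      · rw [if_neg (fun h => hu h.1)]
        push Not at hu
        obtain ⟨i, hi⟩ := hu
        rw [Finset.prod_eq_zero (mem_univ i), zero_mul]
        simp only [hκ₁]
        rw [if_neg hi]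
    rw [h4] at h1
    linarith
  obtain ⟨X₀, hX₀⟩ := equi cls κ hκ0 hDist k G hG0 (ε / 2) (by positivity)
  refine ⟨X₀, fun X hX => ?_⟩
  have h1 := hX₀ X hX
  have h2 : (((LL (k + 1) X).filter (fun l => A (fun i => (l i : ZMod Q)))).card : ℝ) =
      ∑ l ∈ LL (k + 1) X, G (fun i => cls (l i)) := by
    rw [card_filter]
    push_cast
    rfl
  rw [h2]
  refine h1.trans (mul_le_mul_of_nonneg_right (by linarith) (Nat.cast_nonneg _))

open Classical in
theorem count_units (k Q : ℕ) [NeZero Q] (P : ZMod Q → Prop) (y z : ZMod Q)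
    (hP : ∀ x, P x → x = y ∨ x = z) :
    ((univ : Finset (Fin (k + 1) → ZMod Q)).filter
      (fun d => (∀ i, IsUnit (d i)) ∧ P (∏ i, d i))).card ≤ 2 * Nat.totient Q ^ k := by
  have hcardu : ((univ : Finset (ZMod Q)).filter (fun c => IsUnit c)).card = Nat.totient Q := by
    rw [← ZMod.card_units_eq_totient, ← card_univ,
      ← card_image_of_injective (univ : Finset (ZMod Q)ˣ)
      (f := fun u : (ZMod Q)ˣ => (u : ZMod Q)) Units.val_injective]
    congr 1
    ext x
    rw [mem_filter, mem_image]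
    constructor
    · rintro ⟨_, u, hu⟩
      exact ⟨u, mem_univ _, hu⟩
    · rintro ⟨u, _, hu⟩
      exact ⟨mem_univ _, u, hu⟩
  have h1 : (({y, z} : Finset (ZMod Q)) ×ˢ Fintype.piFinset
      (fun _ : Fin k => (univ : Finset (ZMod Q)).filter (fun c => IsUnit c))).card ≤
      2 * Nat.totient Q ^ k := by
    rw [card_product, Fintype.card_piFinset, prod_const, hcardu, card_univ, Fintype.card_fin]
    exact Nat.mul_le_mul_right _ card_le_two
  refine le_trans ?_ h1
  apply card_le_card_of_injOn (fun d => (∏ i, d i, fun i : Fin k => d i.succ))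
  · intro d hd
    rw [mem_coe, mem_filter] at hd
    rw [mem_coe, mem_product, Fintype.mem_piFinset]
    refine ⟨?_, fun i => mem_filter.2 ⟨mem_univ _, hd.2.1 _⟩⟩
    simp only [mem_insert, mem_singleton]
    exact hP _ hd.2.2
  · intro d hd d' hd' h
    rw [mem_coe, mem_filter] at hd hd'
    have e1 := (Prod.mk.inj h).1
    have e2 := (Prod.mk.inj h).2
    have e3 : ∀ i : Fin k, d i.succ = d' i.succ := fun i => congrFun e2 i
    have e4 : d 0 = d' 0 := by
      rw [Fin.prod_univ_succ, Fin.prod_univ_succ (f := d')] at e1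
      have e5 : ∏ i : Fin k, d i.succ = ∏ i : Fin k, d' i.succ :=
        Finset.prod_congr rfl fun i _ => e3 i
      rw [e5] at e1
      have e6 : IsUnit (∏ i : Fin k, d' i.succ) := by
        rw [IsUnit.prod_univ_iff]
        exact fun i => hd'.2.1 _
      exact e6.mul_right_cancel e1
    funext i
    exact Fin.cases e4 e3 i

open Classical in
/-- the union bound: the product of the tuple lies in few classes modulo `w ^ 2` -/
theorem union_sq (k : ℕ) (P : ∀ w : ℕ, ZMod (w ^ 2) → Prop) (ε : ℝ) (hε : 0 < ε) :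
    ∃ B : ℕ, ∀ F : Finset ℕ, (∀ w ∈ F, w.Prime ∧ B < w ∧
      ∃ y z : ZMod (w ^ 2), ∀ x, P w x → x = y ∨ x = z) →
      ∃ X₀ : ℕ, ∀ X : ℕ, X₀ ≤ X →
        (((LL (k + 1) X).filter (fun l => ∃ w ∈ F, P w ((∏ i, l i : ℕ) : ZMod (w ^ 2)))).card : ℝ) ≤
          ε * NN (k + 1) X := by
  set C : ℝ := 4 * 24 ^ (k + 1) with hC
  have hCpos : 0 < C := by positivity
  have hsum : Summable (fun n : ℕ => 1 / (n : ℝ) ^ 2) :=
    Real.summable_one_div_nat_pow.2 (by norm_num)
  obtain ⟨S, hS⟩ := summable_iff_vanishing_norm.1 hsum (ε / (2 * C)) (by positivity)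
  refine ⟨S.sup id, fun F hF => ?_⟩
  have hFS : ∑ w ∈ F, 1 / (w : ℝ) ^ 2 ≤ ε / (2 * C) := by
    have h1 : Disjoint F S := by
      rw [Finset.disjoint_left]
      intro w hw hwS
      have h2 := (hF w hw).2.1
      have h3 : w ≤ S.sup id := Finset.le_sup (f := id) hwS
      omega
    exact (le_abs_self _).trans (hS F h1).le
  have hone : ∀ w ∈ F, ∃ X₀ : ℕ, ∀ X : ℕ, X₀ ≤ X →
      (((LL (k + 1) X).filter (fun l => P w ((∏ i, l i : ℕ) : ZMod (w ^ 2)))).card : ℝ) ≤
        (C * (1 / (w : ℝ) ^ 2) + ε / (2 * (F.card + 1))) * NN (k + 1) X := by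
    intro w hw
    obtain ⟨hwp, -, y, z, hyz⟩ := hF w hw
    have hQ : 0 < w ^ 2 := pow_pos hwp.pos 2
    have : NeZero (w ^ 2) := ⟨hQ.ne'⟩
    obtain ⟨X₀, hX₀⟩ := tup_equi k (w ^ 2) hQ (fun d => P w (∏ i, d i))
      (ε / (2 * (F.card + 1))) (by positivity)
    refine ⟨X₀, fun X hX => ?_⟩
    have h1 := hX₀ X hX
    have h2 := count_units k (w ^ 2) (P w) y z hyz
    have hφ : Nat.totient (w ^ 2) = w * (w - 1) := by
      rw [Nat.totient_prime_pow hwp (by norm_num)]
      simp
    have hφ0 : (0 : ℝ) < Nat.totient (w ^ 2) := by exact_mod_cast Nat.totient_pos.mpr hQ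
    have hφ2 : (w : ℝ) ^ 2 ≤ 2 * Nat.totient (w ^ 2) := by
      have h3 : w ^ 2 ≤ 2 * (w * (w - 1)) := by
        obtain ⟨v, rfl⟩ : ∃ v, w = v + 2 := ⟨w - 2, by have := hwp.two_le; omega⟩
        have : v + 2 - 1 = v + 1 := by omega
        rw [this]
        nlinarith
      rw [hφ]
      exact_mod_cast h3
    have hw0 : (0 : ℝ) < w := by exact_mod_cast hwp.pos
    have h4 : (24 / (Nat.totient (w ^ 2) : ℝ)) ^ (k + 1) *
        (((univ : Finset (Fin (k + 1) → ZMod (w ^ 2))).filter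
          (fun d => (∀ i, IsUnit (d i)) ∧ P w (∏ i, d i))).card : ℝ) ≤ C * (1 / (w : ℝ) ^ 2) := by
      calc _ ≤ (24 / (Nat.totient (w ^ 2) : ℝ)) ^ (k + 1) *
            (2 * (Nat.totient (w ^ 2) : ℝ) ^ k) :=
            mul_le_mul_of_nonneg_left (by exact_mod_cast h2) (by positivity)
        _ = 24 ^ (k + 1) * 2 / Nat.totient (w ^ 2) := by
            rw [div_pow, pow_succ (Nat.totient (w ^ 2) : ℝ)]
            field_simp
        _ ≤ C * (1 / (w : ℝ) ^ 2) := by
            rw [hC, mul_one_div, div_le_div_iff₀ hφ0 (by positivity)]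
            have : (0 : ℝ) < 24 ^ (k + 1) := by positivity
            nlinarith
    have h5 : (((LL (k + 1) X).filter (fun l => P w ((∏ i, l i : ℕ) : ZMod (w ^ 2)))).card : ℝ) =
        (((LL (k + 1) X).filter (fun l => P w (∏ i, (l i : ZMod (w ^ 2))))).card : ℝ) := by
      congr 2
      ext l
      rw [mem_filter, mem_filter, Nat.cast_prod]
    rw [h5]
    exact h1.trans (mul_le_mul_of_nonneg_right (add_le_add h4 le_rfl) (Nat.cast_nonneg _))
  choose! X₀ hX₀ using hone
  refine ⟨∑ w ∈ F, X₀ w, fun X hX => ?_⟩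
  have hsub : (LL (k + 1) X).filter (fun l => ∃ w ∈ F, P w ((∏ i, l i : ℕ) : ZMod (w ^ 2))) ⊆
      F.biUnion (fun w => (LL (k + 1) X).filter (fun l => P w ((∏ i, l i : ℕ) : ZMod (w ^ 2)))) := by
    intro l hl
    rw [mem_filter] at hl
    obtain ⟨h1, w, hw, h2⟩ := hl
    rw [mem_biUnion]
    exact ⟨w, hw, mem_filter.2 ⟨h1, h2⟩⟩
  have h1 := (card_le_card hsub).trans card_biUnion_le
  have h2 : ((((LL (k + 1) X).filter
      (fun l => ∃ w ∈ F, P w ((∏ i, l i : ℕ) : ZMod (w ^ 2)))).card : ℕ) : ℝ) ≤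
      ∑ w ∈ F, (((LL (k + 1) X).filter (fun l => P w ((∏ i, l i : ℕ) : ZMod (w ^ 2)))).card : ℝ) := by
    exact_mod_cast h1
  refine h2.trans ?_
  have h3 : ∑ w ∈ F, (((LL (k + 1) X).filter
      (fun l => P w ((∏ i, l i : ℕ) : ZMod (w ^ 2)))).card : ℝ) ≤
      ∑ w ∈ F, (C * (1 / (w : ℝ) ^ 2) + ε / (2 * (F.card + 1))) * NN (k + 1) X := by
    refine Finset.sum_le_sum fun w hw => hX₀ w hw X ?_
    exact (Finset.single_le_sum (f := X₀) (fun _ _ => Nat.zero_le _) hw).trans hX
  refine h3.trans ?_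
  rw [← Finset.sum_mul]
  apply mul_le_mul_of_nonneg_right _ (Nat.cast_nonneg _)
  rw [Finset.sum_add_distrib, ← Finset.mul_sum, sum_const, nsmul_eq_mul]
  have h4 : C * ∑ w ∈ F, 1 / (w : ℝ) ^ 2 ≤ ε / 2 := by
    calc C * ∑ w ∈ F, 1 / (w : ℝ) ^ 2 ≤ C * (ε / (2 * C)) :=
          mul_le_mul_of_nonneg_left hFS hCpos.le
      _ = ε / 2 := by field_simp
  have h5 : (F.card : ℝ) * (ε / (2 * (F.card + 1))) ≤ ε / 2 := by
    have h6 : (0 : ℝ) ≤ F.card := Nat.cast_nonneg _
    rw [mul_div_assoc', div_le_div_iff₀ (by positivity) (by norm_num)]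
    nlinarith
  linarith

end Pool.Agent.TH66.HF
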