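import Mathlib
import Pool.Agent.TH888.B1.PrimeSieve
import Pool.Agent.TH66.SG.Gal4

/-!
# Primes with a prescribed Frobenius: the class of a given prime
-/

set_option autoImplicit false

namespace Pool.Agent.TH66.HF

open Finset Polynomial NumberField

theorem exists_splitting (f : ℚ[X]) : ∃ (K : Type) (_ : Field K) (_ : NumberField K)
    (_ : IsGalois ℚ K), (f.map (algebraMap ℚ K)).Splits := by
  let K : IntermediateField ℚ ℂ := IntermediateField.adjoin ℚ (f.rootSet ℂ)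
  have hspl : IsSplittingField ℚ K f :=
    IntermediateField.adjoin_rootSet_isSplittingField (IsAlgClosed.splits _)
  have hfd : FiniteDimensional ℚ K := IsSplittingField.finiteDimensional K f
  have hnorm : Normal ℚ K := Normal.of_isSplittingField f
  have hgal : IsGalois ℚ K := IsGalois.mk
  have hnf : NumberField K := NumberField.mk
  exact ⟨K, inferInstance, hnf, hgal, hspl.splits'⟩

theorem exists_K' (s lam : ℕ) (K : Type) [Field K] [CharZero K]
    (hsp : ((cyclotomic (2 ^ (s + 1)) ℚ * ((X ^ 2 ^ s) ^ 2 - X ^ 2 ^ s + C (lam : ℚ))).map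
      (algebraMap ℚ K)).Splits) : ∃ Z : K, IsPrimitiveRoot Z (2 ^ (s + 1)) ∧
      (∃ κ : K, κ ^ 2 - κ + lam = 0) ∧
      ∀ κ : K, κ ^ 2 - κ + lam = 0 → ∃ ρ : K, ρ ^ (2 ^ s) = κ := by
  set n := 2 ^ s with hn
  have hn0 : n ≠ 0 := by positivity
  have hfm : (cyclotomic (2 ^ (s + 1)) ℚ * ((X ^ n) ^ 2 - X ^ n + C (lam : ℚ))).map
      (algebraMap ℚ K) = cyclotomic (2 ^ (s + 1)) K * ((X ^ n) ^ 2 - X ^ n + C (lam : K)) := by
    simp
  rw [hfm] at hsp
  set g : K[X] := (X ^ n) ^ 2 - X ^ n + C (lam : K) with hg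
  have h1 : g = X ^ (2 * n) + (-X ^ n + C (lam : K)) := by
    rw [hg, ← pow_mul, mul_comm n 2]
    ring
  have hdl : (-X ^ n + C (lam : K)).degree < ((2 * n : ℕ) : WithBot ℕ) := by
    refine lt_of_le_of_lt (degree_add_le _ _) ?_
    rw [degree_neg, degree_X_pow]
    refine max_lt (by exact_mod_cast (by omega : n < 2 * n)) ?_
    refine lt_of_le_of_lt degree_C_le ?_
    exact_mod_cast (by omega : 0 < 2 * n)
  have hgm : g.Monic := by
    rw [h1]
    exact monic_X_pow_add hdl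
  have hgd : g.degree ≠ 0 := by
    rw [h1, degree_add_eq_left_of_degree_lt (by rw [degree_X_pow]; exact hdl), degree_X_pow]
    intro h0
    have : 2 * n = 0 := by exact_mod_cast h0
    omega
  have hf0 : cyclotomic (2 ^ (s + 1)) K * g ≠ 0 := ((cyclotomic.monic _ _).mul hgm).ne_zero
  have hgs : g.Splits := hsp.of_dvd hf0 (dvd_mul_left _ _)
  have hroots : ∀ κ : K, κ ^ 2 - κ + lam = 0 → ∃ ρ : K, ρ ^ n = κ := by
    intro κ hκ
    have h1 : g = (X ^ n - C κ) * (X ^ n - C (1 - κ)) := by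
      have h2 : (lam : K) = κ * (1 - κ) := by linear_combination hκ
      rw [hg, h2, C_mul, C_sub, C_1]
      ring
    have h2 : (X ^ n - C κ).Splits := hgs.of_dvd hgm.ne_zero (h1 ▸ dvd_mul_right _ _)
    obtain ⟨ρ, hρ⟩ := h2.exists_eval_eq_zero (by
      rw [degree_X_pow_sub_C (Nat.pos_of_ne_zero hn0)]
      exact_mod_cast hn0)
    refine ⟨ρ, ?_⟩
    simp only [eval_sub, eval_pow, eval_X, eval_C] at hρ
    exact sub_eq_zero.1 hρ
  have hcs : (cyclotomic (2 ^ (s + 1)) K).Splits := hsp.of_dvd hf0 (dvd_mul_right _ _)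
  obtain ⟨Z, hZ⟩ := hcs.exists_eval_eq_zero (by
    rw [degree_cyclotomic]
    exact_mod_cast (Nat.totient_pos.2 (by positivity)).ne')
  have : NeZero (((2 ^ (s + 1) : ℕ)) : K) := ⟨by exact_mod_cast (by positivity : 2 ^ (s + 1) ≠ 0)⟩
  have hZ' : IsPrimitiveRoot Z (2 ^ (s + 1)) := isRoot_cyclotomic_iff.1 hZ
  obtain ⟨ρ, hρ⟩ := hgs.exists_eval_eq_zero hgd
  refine ⟨Z, hZ', ⟨ρ ^ n, ?_⟩, hroots⟩
  rw [hg] at hρ
  simp only [eval_sub, eval_add, eval_pow, eval_X, eval_C] at hρ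
  exact hρ

/-- every prime has a Frobenius automorphism -/
theorem exists_frob (K : Type) [Field K] [NumberField K] [IsGalois ℚ K] (p : ℕ) [Fact p.Prime] :
    ∃ (σ : Gal(K/ℚ)) (φ : 𝓞 K →+* AlgebraicClosure (ZMod p)), ∀ x : 𝓞 K, φ (σ • x) = φ x ^ p := by
  obtain ⟨φ, -⟩ := W54.ChTor.exists_ext (A := ℤ) (B := 𝓞 K) (RingHom.injective_int _) p
    (Int.castRingHom (ZMod p))
  obtain ⟨σ, hσ⟩ := W54.ChTor.trans (H := Gal(K/ℚ)) φ
    ((frobenius (AlgebraicClosure (ZMod p)) p).comp φ) (by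
      intro b hb
      obtain ⟨a, rfl⟩ := Algebra.IsInvariant.isInvariant (A := ℤ) (G := Gal(K/ℚ)) b hb
      simp)
  exact ⟨σ, φ, fun x => by rw [← hσ]; rfl⟩

end Pool.Agent.TH66.HF
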