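import Mathlib

/-!
# For every `lam ≥ 2`: a prime modulo which a root of `x ^ 2 - x + lam` has order `4` or `12`
-/

set_option autoImplicit false

namespace Pool.Agent.TH66.HF

theorem ex_w0 (lam : ℕ) (hlam : 2 ≤ lam) : ∃ w : ℕ, w.Prime ∧ w ≠ 2 ∧
    ∃ κ : ZMod w, κ ^ 2 - κ + lam = 0 ∧ κ ^ 6 = -1 ∧ 2 * κ ≠ 1 := by
  rcases Nat.lt_or_ge lam 3 with h3 | h3
  · -- `lam = 2`
    have h2 : lam = 2 := by omega
    subst h2
    refine ⟨37, by norm_num, by norm_num, 29, ?_, ?_, ?_⟩ <;> decide
  by_cases h5 : lam % 5 = 4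
  · -- `lam ≡ 4` modulo `5`
    obtain ⟨N, hN⟩ : ∃ N, N = lam ^ 4 + 2 * lam ^ 3 + 2 * lam ^ 2 - 2 * lam + 1 := ⟨_, rfl⟩
    have hle : 2 * lam ≤ lam ^ 4 + 2 * lam ^ 3 + 2 * lam ^ 2 := by nlinarith [sq_nonneg lam]
    have hNz : (N : ℤ) = (lam : ℤ) ^ 4 + 2 * lam ^ 3 + 2 * lam ^ 2 - 2 * lam + 1 := by
      rw [hN]
      push_cast [Nat.cast_sub hle]
      ring
    have hN0 : N ≠ 0 := by omega
    obtain ⟨i, t₁, ht₁, hi⟩ := Nat.exists_eq_pow_mul_and_not_dvd hN0 2 (by norm_num)
    have ht₁0 : t₁ ≠ 0 := by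
      rintro rfl
      exact ht₁ (dvd_zero _)
    obtain ⟨d, t, ht, hd⟩ := Nat.exists_eq_pow_mul_and_not_dvd ht₁0 13 (by norm_num)
    have htN : t ∣ N := by
      rw [hi, hd]
      exact ⟨2 ^ i * 13 ^ d, by ring⟩
    have ht1 : t ≠ 1 := by
      intro h1
      rw [h1, mul_one] at hd
      -- `i` is `0` or `2`
      have hN8 : N % 2 = 1 ∨ N % 8 = 4 := by
        have h2 : ∀ l : ZMod 8, l ^ 4 + 2 * l ^ 3 + 2 * l ^ 2 - 2 * l + 1 = ((1 : ℕ) : ZMod 8) ∨
            l ^ 4 + 2 * l ^ 3 + 2 * l ^ 2 - 2 * l + 1 = ((3 : ℕ) : ZMod 8) ∨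
            l ^ 4 + 2 * l ^ 3 + 2 * l ^ 2 - 2 * l + 1 = ((5 : ℕ) : ZMod 8) ∨
            l ^ 4 + 2 * l ^ 3 + 2 * l ^ 2 - 2 * l + 1 = ((7 : ℕ) : ZMod 8) ∨
            l ^ 4 + 2 * l ^ 3 + 2 * l ^ 2 - 2 * l + 1 = ((4 : ℕ) : ZMod 8) := by decide
        have h4 : (N : ZMod 8) = (lam : ZMod 8) ^ 4 + 2 * lam ^ 3 + 2 * lam ^ 2 - 2 * lam + 1 := by
          have := congrArg (Int.cast : ℤ → ZMod 8) hNz
          push_cast at this
          exact this
        have h6 := h2 lam
        rw [← h4] at h6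
        simp only [ZMod.natCast_eq_natCast_iff'] at h6
        omega
      have hi' : i = 0 ∨ i = 2 := by
        rcases i with _ | _ | _ | i
        · exact Or.inl rfl
        · exfalso
          rw [zero_add, pow_one] at hi
          omega
        · exact Or.inr rfl
        · exfalso
          have : 8 ∣ N := by
            rw [hi, show i + 1 + 1 + 1 = i + 3 by ring, pow_add]
            exact ⟨2 ^ i * t₁, by ring⟩
          omega
      have hN5 : N % 5 = 4 := by
        have h4 : (N : ZMod 5) = (lam : ZMod 5) ^ 4 + 2 * lam ^ 3 + 2 * lam ^ 2 - 2 * lam + 1 := by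
          have := congrArg (Int.cast : ℤ → ZMod 5) hNz
          push_cast at this
          exact this
        have h6 : (lam : ZMod 5) = ((4 : ℕ) : ZMod 5) := by
          rw [ZMod.natCast_eq_natCast_iff']
          exact h5
        rw [h6] at h4
        have h7 : (N : ZMod 5) = ((4 : ℕ) : ZMod 5) := by
          rw [h4]
          decide
        rw [ZMod.natCast_eq_natCast_iff'] at h7
        exact h7
      have hd2 : Even d := by
        by_contra hodd
        rw [Nat.not_even_iff_odd] at hodd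
        obtain ⟨m, rfl⟩ := hodd
        have h7 : (N : ZMod 5) = ((4 : ℕ) : ZMod 5) := by
          rw [ZMod.natCast_eq_natCast_iff']
          exact hN5
        have h8 : ((13 : ZMod 5)) ^ (2 * m + 1) = 3 ∨ ((13 : ZMod 5)) ^ (2 * m + 1) = -3 := by
          have h9 : (13 : ZMod 5) ^ 2 = -1 := by decide
          have h10 : (13 : ZMod 5) = 3 := by decide
          rw [pow_succ, pow_mul, h9, h10]
          rcases neg_one_pow_eq_or (ZMod 5) m with h | h
          · left
            rw [h, one_mul]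
          · right
            rw [h]
            ring
        rw [hi, hd] at h7
        push_cast at h7
        rcases hi' with rfl | rfl
        · rw [pow_zero, one_mul] at h7
          rcases h8 with h8 | h8
          · rw [h8] at h7
            revert h7
            decide
          · rw [h8] at h7
            revert h7
            decide
        · rcases h8 with h8 | h8
          · rw [h8] at h7
            revert h7
            decide
          · rw [h8] at h7
            revert h7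
            decide
      obtain ⟨d', rfl⟩ := hd2
      obtain ⟨y, hy⟩ : ∃ y : ℕ, N = y ^ 2 := by
        rcases hi' with rfl | rfl
        · exact ⟨13 ^ d', by rw [hi, hd]; ring⟩
        · exact ⟨2 * 13 ^ d', by rw [hi, hd]; ring⟩
      have hyz : (y : ℤ) ^ 2 = (lam : ℤ) ^ 4 + 2 * lam ^ 3 + 2 * lam ^ 2 - 2 * lam + 1 := by
        rw [← hNz, hy]
        push_cast
        ring
      have hl : (3 : ℤ) ≤ lam := by exact_mod_cast h3
      have hy0 : (0 : ℤ) ≤ y := Int.natCast_nonneg y
      have h8 : (lam : ℤ) ^ 2 + lam < y := by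
        by_contra hcon
        push Not at hcon
        have : (y : ℤ) ^ 2 ≤ (lam ^ 2 + lam) ^ 2 := pow_le_pow_left₀ hy0 hcon 2
        nlinarith
      have h9 : (y : ℤ) < lam ^ 2 + lam + 1 := by
        by_contra hcon
        push Not at hcon
        have : ((lam : ℤ) ^ 2 + lam + 1) ^ 2 ≤ y ^ 2 := pow_le_pow_left₀ (by positivity) hcon 2
        nlinarith
      omega
    have htp := Nat.minFac_prime ht1
    have htd := Nat.minFac_dvd t
    set w := t.minFac with hw
    have hw2 : w ≠ 2 := by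
      intro h
      apply ht₁
      rw [hd]
      exact (h ▸ htd).mul_left _
    have hw13 : w ≠ 13 := fun h => ht (h ▸ htd)
    have hwf : Fact w.Prime := ⟨htp⟩
    have hN' : (lam : ZMod w) ^ 4 + 2 * lam ^ 3 + 2 * lam ^ 2 - 2 * lam + 1 = 0 := by
      have h1 : ((N : ℤ) : ZMod w) = 0 := by
        rw [Int.cast_natCast, ZMod.natCast_eq_zero_iff]
        exact htd.trans htN
      rw [hNz] at h1
      push_cast at h1
      exact h1
    have h20 : (2 : ZMod w) ≠ 0 := by
      intro h0
      have : ((2 : ℕ) : ZMod w) = 0 := by exact_mod_cast h0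
      rw [ZMod.natCast_eq_zero_iff] at this
      exact hw2 ((Nat.prime_dvd_prime_iff_eq htp Nat.prime_two).1 this)
    have hl0 : (lam : ZMod w) ≠ 0 := by
      intro h0
      rw [h0] at hN'
      norm_num at hN'
    have hκ : ∃ κ : ZMod w, 2 * lam * κ = lam ^ 2 + 1 :=
      ⟨(lam ^ 2 + 1) / (2 * lam), mul_div_cancel₀ _ (mul_ne_zero h20 hl0)⟩
    obtain ⟨κ, hκ⟩ := hκ
    have h1 : κ ^ 2 - κ + lam = 0 := by
      have h2 : (2 * lam : ZMod w) ^ 2 * (κ ^ 2 - κ + lam) = 0 := by
        linear_combination (2 * lam * κ + lam ^ 2 + 1 - 2 * lam) * hκ + hN'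
      exact (mul_eq_zero.1 h2).resolve_left (pow_ne_zero 2 (mul_ne_zero h20 hl0))
    have h2 : κ ^ 4 - κ ^ 2 + 1 = 0 := by
      linear_combination (κ ^ 2 + κ - lam) * h1 - hκ
    refine ⟨w, htp, hw2, κ, h1, ?_, ?_⟩
    · linear_combination (κ ^ 2 + 1) * h2
    · intro h4
      have h5 : (13 : ZMod w) = 0 := by
        linear_combination 16 * h2 - (8 * κ ^ 3 + 4 * κ ^ 2 - 6 * κ - 3) * h4
      have : ((13 : ℕ) : ZMod w) = 0 := by exact_mod_cast h5
      rw [ZMod.natCast_eq_zero_iff] at this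
      exact hw13 ((Nat.prime_dvd_prime_iff_eq htp (by norm_num)).1 this)
  · -- `(lam - 1) ^ 2 + 1` has an odd prime factor
    obtain ⟨x, rfl⟩ : ∃ x, lam = x + 1 := ⟨lam - 1, by omega⟩
    obtain ⟨i, t, ht, hi⟩ := Nat.exists_eq_pow_mul_and_not_dvd
      (show x ^ 2 + 1 ≠ 0 by omega) 2 (by norm_num)
    have ht1 : t ≠ 1 := by
      rintro rfl
      rw [mul_one] at hi
      have hx2 : 2 ≤ x := by omega
      have h4 : (x ^ 2 + 1) % 4 = 1 ∨ (x ^ 2 + 1) % 4 = 2 := by
        rcases Nat.even_or_odd' x with ⟨y, rfl | rfl⟩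
        · left
          have : (2 * y) ^ 2 + 1 = 4 * y ^ 2 + 1 := by ring
          omega
        · right
          have : (2 * y + 1) ^ 2 + 1 = 4 * (y ^ 2 + y) + 2 := by ring
          omega
      rcases i with _ | _ | i
      · rw [pow_zero] at hi
        nlinarith
      · rw [zero_add, pow_one] at hi
        nlinarith
      · have : 4 ∣ x ^ 2 + 1 := by
          rw [hi, show i + 1 + 1 = i + 2 by ring, pow_add]
          exact ⟨2 ^ i, by ring⟩
        omega
    have htp := Nat.minFac_prime ht1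
    have htd := Nat.minFac_dvd t
    set w := t.minFac with hw
    have hw2 : w ≠ 2 := fun h => ht (h ▸ htd)
    have hwf : Fact w.Prime := ⟨htp⟩
    have hx : (x : ZMod w) ^ 2 + 1 = 0 := by
      have h1 : ((x ^ 2 + 1 : ℕ) : ZMod w) = 0 := by
        rw [ZMod.natCast_eq_zero_iff, hi]
        exact htd.mul_left _
      push_cast at h1
      exact h1
    refine ⟨w, htp, hw2, x, ?_, ?_, ?_⟩
    · push_cast
      linear_combination hx
    · linear_combination (x ^ 4 - x ^ 2 + 1 : ZMod w) * hx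
    · intro h4
      have h5' : (5 : ZMod w) = 0 := by
        linear_combination 4 * hx - (2 * x + 1) * h4
      have h6 : ((5 : ℕ) : ZMod w) = 0 := by exact_mod_cast h5'
      rw [ZMod.natCast_eq_zero_iff] at h6
      have hw5 : w = 5 := (Nat.prime_dvd_prime_iff_eq htp (by norm_num)).1 h6
      apply h5
      have h7 : (w : ℤ) ∣ 2 * (x : ℤ) - 1 := by
        rw [← ZMod.intCast_zmod_eq_zero_iff_dvd]
        push_cast
        rw [h4, sub_self]
      rw [hw5] at h7
      omega

end Pool.Agent.TH66.HF
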