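import Mathlib
import Pool.Agent.TH66.HF.Fld
import Pool.Agent.TH66.HF.W0

/-!
# Many primes modulo which a root of `x ^ 2 - x + lam` has order divisible by `4`
-/

set_option autoImplicit false

namespace Pool.Agent.TH66.HF

open Finset Polynomial NumberField

/-- the primes used -/
def RR (s lam B : ℕ) : Set ℕ :=
  {w : ℕ | w.Prime ∧ B < w ∧ ∃ b : ℕ, Odd b ∧ w = 2 ^ s * b + 1 ∧
    ∃ κ : ZMod w, κ ^ 2 - κ + lam = 0 ∧ κ ^ (2 * b) = -1}

/-- a homomorphism to characteristic `p` odd is injective on the powers of `z` -/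
theorem prim_map {K : Type} [Field K] [NumberField K] {p n : ℕ} [Fact p.Prime] (hn : 0 < n)
    (hp : ¬ p ∣ n) (φ : 𝓞 K →+* AlgebraicClosure (ZMod p)) {z : 𝓞 K} (hz : IsPrimitiveRoot z n) :
    IsPrimitiveRoot (φ z) n := by
  have hN : NeZero ((n : ℕ) : AlgebraicClosure (ZMod p)) := by
    constructor
    intro h
    rw [CharP.cast_eq_zero_iff (AlgebraicClosure (ZMod p)) p] at h
    exact hp h
  have h1 := (hz.isRoot_cyclotomic hn).map (f := φ)
  rw [map_cyclotomic] at h1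
  exact isRoot_cyclotomic_iff.1 h1

theorem pow_mod_of_one {M : Type} [Monoid M] {x : M} {n : ℕ} (h : x ^ n = 1) (i : ℕ) :
    x ^ i = x ^ (i % n) := by
  conv_lhs => rw [← Nat.div_add_mod i n, pow_add, pow_mul, h, one_pow, one_mul]

theorem rr_diverges (lam s w₀ b₀ : ℕ) (hlam : 1 ≤ lam) (hs : 1 ≤ s) (hw₀ : w₀.Prime)
    (hb₀ : Odd b₀) (hwb₀ : w₀ = 2 ^ s * b₀ + 1) (κ₀ : ZMod w₀) (h1 : κ₀ ^ 2 - κ₀ + lam = 0)
    (h2 : κ₀ ^ (2 * b₀) = -1) (h3 : 2 * κ₀ ≠ 1) (B : ℕ) :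
    ¬ Summable (fun n : ℕ => (RR s lam B).indicator (fun n : ℕ => (1 : ℝ) / n) n) := by
  have hwf₀ : Fact w₀.Prime := ⟨hw₀⟩
  obtain ⟨K, iK1, iK2, iK3, hsp⟩ := exists_splitting
    (cyclotomic (2 ^ (s + 1)) ℚ * ((X ^ 2 ^ s) ^ 2 - X ^ 2 ^ s + C (lam : ℚ)))
  obtain ⟨Z, hZ, ⟨κ₁, hκ₁⟩, hroot⟩ := exists_K' s lam K hsp
  obtain ⟨σ, φ₀, hφ₀⟩ := exists_frob K w₀
  set F₀ := AlgebraicClosure (ZMod w₀) with hF₀
  have hinj₀ : Function.Injective (algebraMap (ZMod w₀) F₀) := (algebraMap (ZMod w₀) F₀).injective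
  have hint : ∀ κ : K, κ ^ 2 - κ + lam = 0 → IsIntegral ℤ κ := by
    intro κ hκ
    refine ⟨X ^ 2 - X + C (lam : ℤ), ?_, ?_⟩
    · monicity!
    · simp [hκ]
  have hZint : IsIntegral ℤ Z := by
    refine ⟨X ^ (2 ^ (s + 1)) - C 1, monic_X_pow_sub_C _ (by positivity), ?_⟩
    simp [hZ.pow_eq_one]
  -- the root lying over `κ₀`
  obtain ⟨k, hk, hkφ⟩ : ∃ k : 𝓞 K, (k : K) ^ 2 - k + lam = 0 ∧ φ₀ k = algebraMap _ F₀ κ₀ := by
    obtain ⟨k₁, hk₁⟩ : ∃ k : 𝓞 K, (k : K) = κ₁ := ⟨⟨κ₁, hint _ hκ₁⟩, rfl⟩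
    have e1 : k₁ ^ 2 - k₁ + lam = 0 := by
      apply RingOfIntegers.coe_injective
      rw [map_zero, map_add, map_sub, map_pow, map_natCast]
      change (k₁ : K) ^ 2 - (k₁ : K) + lam = 0
      rw [hk₁]
      exact hκ₁
    have e2 := congrArg φ₀ e1
    simp only [map_add, map_sub, map_pow, map_natCast, map_zero] at e2
    have e3 := congrArg (algebraMap (ZMod w₀) F₀) h1
    simp only [map_add, map_sub, map_pow, map_natCast, map_zero] at e3
    have e4 : (φ₀ k₁ - algebraMap _ F₀ κ₀) * (φ₀ k₁ + algebraMap _ F₀ κ₀ - 1) = 0 := by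
      linear_combination e2 - e3
    rcases mul_eq_zero.1 e4 with h | h
    · exact ⟨k₁, by rw [hk₁]; exact hκ₁, sub_eq_zero.1 h⟩
    · refine ⟨1 - k₁, ?_, ?_⟩
      · have : ((1 - k₁ : 𝓞 K) : K) = 1 - κ₁ := by
          rw [← hk₁]
          simp
        rw [this]
        linear_combination hκ₁
      · rw [map_sub, map_one]
        linear_combination -h
  obtain ⟨ρ, hρ⟩ := hroot k hk
  have hρint : IsIntegral ℤ ρ := by
    refine IsIntegral.of_pow (n := 2 ^ s) (by positivity) ?_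
    rw [hρ]
    exact hint _ hk
  obtain ⟨z, hz⟩ : ∃ z : 𝓞 K, (z : K) = Z := ⟨⟨Z, hZint⟩, rfl⟩
  obtain ⟨r, hr⟩ : ∃ r : 𝓞 K, (r : K) = ρ := ⟨⟨ρ, hρint⟩, rfl⟩
  have hrk : r ^ 2 ^ s = k := by
    apply RingOfIntegers.coe_injective
    rw [map_pow]
    change (r : K) ^ 2 ^ s = k
    rw [hr, hρ]
  have hk' : k ^ 2 - k + lam = 0 := by
    apply RingOfIntegers.coe_injective
    rw [map_zero, map_add, map_sub, map_pow, map_natCast]
    exact hk
  have hzprim : IsPrimitiveRoot z (2 ^ (s + 1)) := by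
    apply IsPrimitiveRoot.of_map_of_injective (f := algebraMap (𝓞 K) K)
    · rw [show algebraMap (𝓞 K) K z = Z from hz]
      exact hZ
    · exact RingOfIntegers.coe_injective
  have hpow2 : 2 ^ (s + 1) = 2 * 2 ^ s := by rw [pow_succ]; ring
  have hzhalf : z ^ 2 ^ s = -1 := by
    have e1 : (z ^ 2 ^ s - 1) * (z ^ 2 ^ s + 1) = 0 := by
      have := hzprim.pow_eq_one
      rw [hpow2, mul_comm, pow_mul] at this
      linear_combination this
    rcases mul_eq_zero.1 e1 with h | h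
    · exfalso
      have h4 := hzprim.dvd_of_pow_eq_one _ (sub_eq_zero.1 h)
      have h5 := Nat.le_of_dvd (by positivity) h4
      have h6 : 0 < 2 ^ s := by positivity
      omega
    · exact eq_neg_of_add_eq_zero_left h
  have hodd₀ : ¬ w₀ ∣ 2 ^ (s + 1) := by
    intro h
    have h4 : w₀ ∣ 2 := hw₀.dvd_of_dvd_pow h
    have h5 := Nat.le_of_dvd (by norm_num) h4
    have h6 : 2 ^ 1 ≤ 2 ^ s := Nat.pow_le_pow_right (by norm_num) hs
    have h7 := hb₀.pos
    have : 2 ^ s * 1 ≤ 2 ^ s * b₀ := Nat.mul_le_mul_left _ h7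
    omega
  have hθ₀ := prim_map (by positivity) hodd₀ φ₀ hzprim
  -- powers of `z` are determined by their images
  have htr : ∀ i j : ℕ, φ₀ z ^ i = φ₀ z ^ j → z ^ i = z ^ j := by
    intro i j h
    have e1 : φ₀ z ^ (i % 2 ^ (s + 1)) = φ₀ z ^ (j % 2 ^ (s + 1)) := by
      rw [← pow_mod_of_one hθ₀.pow_eq_one, ← pow_mod_of_one hθ₀.pow_eq_one]
      exact h
    have e2 := hθ₀.pow_inj (Nat.mod_lt _ (by positivity)) (Nat.mod_lt _ (by positivity)) e1
    rw [pow_mod_of_one hzprim.pow_eq_one i, pow_mod_of_one hzprim.pow_eq_one j, e2]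
  have hκ₀0 : κ₀ ≠ 0 := by
    intro h
    rw [h, zero_pow (by have := hb₀.pos; omega)] at h2
    have : (1 : ZMod w₀) = 0 := by linear_combination h2
    exact one_ne_zero this
  have hφr : φ₀ r ^ 2 ^ s = algebraMap _ F₀ κ₀ := by rw [← map_pow, hrk, hkφ]
  have hφr0 : φ₀ r ≠ 0 := by
    intro h
    rw [h, zero_pow (by positivity)] at hφr
    exact hκ₀0 (hinj₀ (by rw [← hφr, map_zero]))
  -- `σ z = - z`
  have hσz : σ • z = -z := by
    have e1 : (σ • z) ^ 2 ^ (s + 1) = 1 := by rw [← smul_pow', hzprim.pow_eq_one, smul_one]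
    obtain ⟨j, -, hj⟩ := hzprim.eq_pow_of_pow_eq_one e1
    have e2 : -z = z ^ (2 ^ s + 1) := by rw [pow_succ, hzhalf]; ring
    have e3 : φ₀ z ^ 2 ^ s = -1 := by rw [← map_pow, hzhalf, map_neg, map_one]
    rw [← hj, e2]
    apply htr
    calc φ₀ z ^ j = φ₀ (σ • z) := by rw [← map_pow, hj]
      _ = φ₀ z ^ w₀ := hφ₀ z
      _ = φ₀ z ^ (2 ^ s * b₀ + 1) := congrArg (fun m : ℕ => φ₀ z ^ m) hwb₀
      _ = φ₀ z ^ (2 ^ s + 1) := by
        rw [pow_succ, pow_succ, pow_mul, e3, hb₀.neg_one_pow]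
  -- `σ k = k`
  have hσk : σ • k = k := by
    have e1 : (σ • k) ^ 2 - σ • k + lam = 0 := by
      have := congrArg (fun x => σ • x) hk'
      simp only [smul_add, smul_sub, smul_pow', smul_zero] at this
      rw [show σ • ((lam : ℕ) : 𝓞 K) = lam from
        map_natCast (MulSemiringAction.toRingHom Gal(K/ℚ) (𝓞 K) σ) lam] at this
      exact this
    have e2 : (σ • k - k) * (σ • k + k - 1) = 0 := by linear_combination e1 - hk'
    rcases mul_eq_zero.1 e2 with h | h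
    · exact sub_eq_zero.1 h
    · exfalso
      apply h3
      apply hinj₀
      have e3 := hφ₀ k
      rw [show σ • k = 1 - k by linear_combination h, map_sub, map_one, hkφ, ← map_pow,
        ZMod.pow_card] at e3
      rw [map_mul, map_ofNat, map_one]
      linear_combination -e3
  -- `σ r = z ^ j * r`
  obtain ⟨j, hj⟩ : ∃ j : ℕ, σ • r = z ^ j * r := by
    have hρ0 : ρ ≠ 0 := by
      intro h
      apply hφr0
      have : r = 0 := by
        apply RingOfIntegers.coe_injective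
        change (r : K) = _
        rw [hr, h, map_zero]
      rw [this, map_zero]
    have e1 : (σ ρ / ρ) ^ 2 ^ (s + 1) = 1 := by
      rw [hpow2, mul_comm, pow_mul, div_pow, ← map_pow, hρ]
      have : σ (k : K) = k := by
        have := congrArg (algebraMap (𝓞 K) K) hσk
        exact this
      rw [this, div_self, one_pow]
      rw [← hρ]
      exact pow_ne_zero _ hρ0
    obtain ⟨j, -, hj⟩ := hZ.eq_pow_of_pow_eq_one e1
    refine ⟨j, ?_⟩
    apply RingOfIntegers.coe_injective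
    rw [map_mul, map_pow]
    change σ (r : K) = (z : K) ^ j * (r : K)
    rw [hr, hz, hj, div_mul_cancel₀ _ hρ0]
  have hz2j : z ^ (2 * j) = -1 := by
    have e1 : φ₀ r ^ (w₀ - 1) = φ₀ z ^ j := by
      have e2 : φ₀ r ^ (w₀ - 1) * φ₀ r = φ₀ z ^ j * φ₀ r := by
        rw [← pow_succ, Nat.sub_add_cancel hw₀.one_le, ← hφ₀, hj, map_mul, map_pow]
      exact mul_right_cancel₀ hφr0 e2
    rw [← hzhalf]
    apply htr
    rw [mul_comm 2 j, pow_mul, ← e1, ← pow_mul, show (w₀ - 1) * 2 = 2 ^ s * (2 * b₀) by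
      rw [hwb₀, Nat.add_sub_cancel]; ring, pow_mul, hφr, ← map_pow, h2, ← map_pow φ₀ z, hzhalf,
      map_neg, map_neg, map_one, map_one]
  -- the primes with Frobenius `σ`
  have hdiv := Pool.Agent.TH888.B1.frob_diverges K σ
  set B' : ℕ := B + 2 ^ (s + 1) + lam with hB'
  refine Pool.Agent.TH888.B1.diverges_mono ?_
    (Pool.Agent.TH888.B1.diverges_diff (Set.finite_Iic B') hdiv)
  rintro w ⟨⟨hw, hxp⟩, hwB⟩
  have hwB' : B' < w := by simpa using hwB
  have : Fact w.Prime := ⟨hw⟩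
  obtain ⟨φ, hφ⟩ := Pool.Agent.TH888.B1.exists_hom σ hw hxp
  set F := AlgebraicClosure (ZMod w) with hF
  have hodd : ¬ w ∣ 2 ^ (s + 1) := fun h => by
    have := Nat.le_of_dvd (by positivity) h
    omega
  have hθ := prim_map (by positivity) hodd φ hzprim
  set θ := φ z with hθd
  have hθ0 : θ ≠ 0 := hθ.ne_zero (by positivity)
  have hθhalf : θ ^ 2 ^ s = -1 := by rw [hθd, ← map_pow, hzhalf, map_neg, map_one]
  have hθw : θ ^ w = -θ := by rw [hθd, ← hφ z, hσz, map_neg]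
  have hw1 : w = (w - 1) + 1 := by
    have := hw.two_le
    omega
  have hθw1 : θ ^ (w - 1) = -1 := by
    have h1 : θ ^ (w - 1) * θ = -1 * θ := by
      rw [← pow_succ, ← hw1, hθw]
      ring
    exact mul_right_cancel₀ hθ0 h1
  have hneg : (-1 : F) ≠ 1 := by
    intro h
    have h1 : (2 : F) = 0 := by linear_combination -h
    have h3 : ((2 : ℕ) : F) = 0 := by exact_mod_cast h1
    rw [CharP.cast_eq_zero_iff F w] at h3
    have h4 := Nat.le_of_dvd (by norm_num) h3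
    have h5 : 2 ^ 1 ≤ 2 ^ (s + 1) := Nat.pow_le_pow_right (by norm_num) (by omega)
    omega
  have hdvd : 2 ^ s ∣ w - 1 := by
    have h1 : θ ^ (2 * (w - 1)) = 1 := by
      rw [mul_comm, pow_mul, hθw1]
      norm_num
    have h3 := hθ.dvd_of_pow_eq_one _ h1
    rw [hpow2] at h3
    exact Nat.dvd_of_mul_dvd_mul_left (by norm_num) h3
  obtain ⟨b, hb⟩ := hdvd
  have hbo : Odd b := by
    by_contra h
    rw [Nat.not_odd_iff_even] at h
    rw [hb, pow_mul, hθhalf, h.neg_one_pow] at hθw1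
    exact hneg hθw1.symm
  have hkw : φ k ^ w = φ k := by rw [← hφ, hσk]
  obtain ⟨κ, hκ⟩ := W54.ChTor.frob_fixed w (φ k) hkw
  have hinjF : Function.Injective (algebraMap (ZMod w) F) := (algebraMap (ZMod w) F).injective
  have hφk : φ k ^ 2 - φ k + lam = 0 := by
    have := congrArg φ hk'
    simpa using this
  have hφk0 : φ k ≠ 0 := by
    intro h
    rw [h] at hφk
    have h4 : ((lam : ℕ) : F) = 0 := by
      rw [← hφk]
      ring
    rw [CharP.cast_eq_zero_iff F w] at h4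
    have := Nat.le_of_dvd (by omega) h4
    omega
  have hφr' : φ r ^ 2 ^ s = φ k := by rw [← map_pow, hrk]
  have hφr0' : φ r ≠ 0 := by
    intro h
    rw [h, zero_pow (by positivity)] at hφr'
    exact hφk0 hφr'.symm
  have e1 : φ r ^ (w - 1) = θ ^ j := by
    have e2 : φ r ^ (w - 1) * φ r = θ ^ j * φ r := by
      rw [← pow_succ, ← hw1, ← hφ, hj, map_mul, map_pow]
    exact mul_right_cancel₀ hφr0' e2
  refine ⟨hw, by omega, b, hbo, by rw [← hb]; exact hw1, κ, ?_, ?_⟩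
  · apply hinjF
    rw [map_add, map_sub, map_pow, map_natCast, map_zero, hκ]
    exact hφk
  · apply hinjF
    rw [map_pow, map_neg, map_one, hκ, ← hφr', ← pow_mul, show 2 ^ s * (2 * b) = (w - 1) * 2 by
      rw [hb]; ring, pow_mul, e1, ← pow_mul, mul_comm j 2, hθd, ← map_pow, hz2j, map_neg, map_one]

/-- for every `lam ≥ 2` there is a suitable `s` -/
theorem exists_diverges (lam : ℕ) (hlam : 2 ≤ lam) : ∃ s : ℕ, 2 ≤ s ∧ ∀ B : ℕ,
    ¬ Summable (fun n : ℕ => (RR s lam B).indicator (fun n : ℕ => (1 : ℝ) / n) n) := by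
  obtain ⟨w, hw, hw2, κ, h1, h6, h3⟩ := ex_w0 lam hlam
  have hwf : Fact w.Prime := ⟨hw⟩
  have hw1 : w - 1 ≠ 0 := by
    have := hw.two_le
    omega
  obtain ⟨s, b, hb', hb⟩ := Nat.exists_eq_pow_mul_and_not_dvd hw1 2 (by norm_num)
  have hbo : Odd b := by rwa [← Nat.not_even_iff_odd, even_iff_two_dvd]
  have hκ0 : κ ≠ 0 := by
    intro h
    rw [h] at h6
    have : (1 : ZMod w) = 0 := by linear_combination h6
    exact one_ne_zero this
  have hneg : (-1 : ZMod w) ≠ 1 := by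
    intro h
    have h3 : (2 : ZMod w) = 0 := by linear_combination -h
    have h4 : ((2 : ℕ) : ZMod w) = 0 := by exact_mod_cast h3
    rw [ZMod.natCast_eq_zero_iff] at h4
    exact hw2 ((Nat.prime_dvd_prime_iff_eq hw Nat.prime_two).1 h4)
  have hfer : κ ^ (2 ^ s * b) = 1 := by
    rw [← hb]
    exact ZMod.pow_card_sub_one_eq_one hκ0
  have hs2 : 2 ≤ s := by
    by_contra hcon
    have h4 : κ ^ (2 * b) = 1 := by
      have h5 : 2 ^ s * b ∣ 2 * b := Nat.mul_dvd_mul_right (by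
        have : 2 ^ s ∣ 2 ^ 1 := pow_dvd_pow 2 (by omega)
        simpa using this) b
      obtain ⟨c, hc⟩ := h5
      rw [hc, pow_mul, hfer, one_pow]
    have h5 : (κ ^ (2 * b)) ^ 3 = -1 := by
      rw [← pow_mul, show 2 * b * 3 = 6 * b by ring, pow_mul, h6, hbo.neg_one_pow]
    rw [h4, one_pow] at h5
    exact hneg h5.symm
  have h2b : κ ^ (2 * b) = -1 := by
    set y := κ ^ (2 * b) with hy
    have h5 : y ^ 3 = -1 := by
      rw [hy, ← pow_mul, show 2 * b * 3 = 6 * b by ring, pow_mul, h6, hbo.neg_one_pow]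
    have h7 : y ^ 2 ^ (s - 1) = 1 := by
      rw [hy, ← pow_mul, show 2 * b * 2 ^ (s - 1) = 2 ^ s * b by
        have : 2 ^ s = 2 * 2 ^ (s - 1) := by
          rw [← pow_succ']
          congr 1
          omega
        rw [this]
        ring]
      exact hfer
    have h8 : (-y) ^ 3 = 1 := by
      rw [Odd.neg_pow (by decide), h5, neg_neg]
    have h9 : (-y) ^ 2 ^ (s - 1) = 1 := by
      rw [Even.neg_pow, h7]
      exact (Nat.even_pow.2 ⟨even_two, by omega⟩)
    have h10 := pow_gcd_eq_one.2 ⟨h8, h9⟩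
    rw [show Nat.gcd 3 (2 ^ (s - 1)) = 1 from
      (Nat.Coprime.pow_right (s - 1) (by norm_num : Nat.Coprime 3 2)), pow_one] at h10
    rw [← h10, neg_neg]
  refine ⟨s, hs2, fun B => ?_⟩
  exact rr_diverges lam s w b (by omega) (by omega) hw hbo (by omega) κ h1 h2b h3 B

end Pool.Agent.TH66.HF
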