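import Mathlib
import Pool.Agent.TH66.SG.Tup3
import Pool.Agent.TH66.SG.Fin2

/-!
# Tuples of primes and local sets which contain a coset
-/

set_option autoImplicit false

namespace Pool.Agent.TH66.HF

open Finset Filter Topology
open Pool.Agent.TH66.SG (LL NN tuple_avoid exists_zeta')

theorem coset_card (k : ℕ) (w b : ℕ) (hw : w.Prime) (hb : 0 < b) (hbw : b ∣ w - 1)
    (c : Fin (k + 1) → ZMod w) (hc : ∀ i, c i ≠ 0) (T : Set (Fin (k + 1) → ZMod w))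
    (hT : ∀ x : Fin (k + 1) → ZMod w, (∀ i, x i ^ b = c i ^ b) → ∏ i, x i = ∏ i, c i → x ∈ T) :
    b ^ k ≤ T.ncard := by
  have hwf : Fact w.Prime := ⟨hw⟩
  obtain ⟨ζ, hζ⟩ := exists_zeta' w b hbw
  have hζb : ζ ^ b = 1 := (hζ b).2 dvd_rfl
  have hord : orderOf ζ = b :=
    Nat.dvd_antisymm (orderOf_dvd_of_pow_eq_one hζb) ((hζ _).1 (pow_orderOf_eq_one ζ))
  set Φ : (Fin k → Fin b) → (Fin (k + 1) → ZMod w) := fun j =>
    Fin.cons (c 0 * ζ ^ (∑ i, (b - (j i : ℕ)))) (fun i => c i.succ * ζ ^ (j i : ℕ)) with hΦ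
  have hinj : Function.Injective Φ := by
    intro j j' h
    funext i
    have h1 := congrFun h i.succ
    simp only [hΦ, Fin.cons_succ] at h1
    have h2 := mul_left_cancel₀ (hc _) h1
    have h3 : (j i : ℕ) = j' i := by
      apply pow_injOn_Iio_orderOf (x := ζ) _ _ h2
      · rw [Set.mem_Iio, hord]
        exact (j i).2
      · rw [Set.mem_Iio, hord]
        exact (j' i).2
    exact Fin.ext h3
  have hmem : ∀ j, Φ j ∈ T := by
    intro j
    have hpow : ∀ (y : ZMod w) (N : ℕ), (y * ζ ^ N) ^ b = y ^ b := by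
      intro y N
      rw [mul_pow, ← pow_mul]
      have : ζ ^ (N * b) = 1 := (hζ _).2 (dvd_mul_left _ _)
      rw [this, mul_one]
    apply hT
    · intro i
      refine Fin.cases ?_ (fun i => ?_) i
      · simp only [hΦ, Fin.cons_zero]
        rw [hpow]
      · simp only [hΦ, Fin.cons_succ]
        rw [hpow]
    · rw [Fin.prod_univ_succ, Fin.prod_univ_succ (f := c)]
      simp only [hΦ, Fin.cons_zero, Fin.cons_succ]
      rw [Finset.prod_mul_distrib, Finset.prod_pow_eq_pow_sum]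
      have h2 : ζ ^ (∑ i, (b - (j i : ℕ))) * ζ ^ (∑ i, (j i : ℕ)) = 1 := by
        rw [← pow_add, ← Finset.sum_add_distrib]
        rw [Finset.sum_congr rfl (g := fun _ => b) (fun i _ => by have := (j i).2; omega)]
        rw [sum_const, smul_eq_mul]
        exact (hζ _).2 (dvd_mul_left _ _)
      linear_combination (c 0 * ∏ i : Fin k, c i.succ) * h2
  calc b ^ k = (Set.univ : Set (Fin k → Fin b)).ncard := by
        rw [Set.ncard_univ, Nat.card_eq_fintype_card, Fintype.card_fun, Fintype.card_fin,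
          Fintype.card_fin]
    _ = (Φ '' Set.univ).ncard := (Set.ncard_image_of_injective _ hinj).symm
    _ ≤ T.ncard := by
        refine Set.ncard_le_ncard ?_ (Set.toFinite _)
        rintro _ ⟨j, -, rfl⟩
        exact hmem j

open Classical in
theorem tup_gen (s k : ℕ) (R : Set ℕ)
    (hR : ∀ w ∈ R, w.Prime ∧ w ≠ 2 ∧ ∃ b : ℕ, 0 < b ∧ w = 2 ^ s * b + 1)
    (hdiv : ¬ Summable (fun n : ℕ => R.indicator (fun n : ℕ => (1 : ℝ) / n) n))
    (T : ∀ w : ℕ, Set (Fin (k + 1) → ZMod w))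
    (hT0 : ∀ w ∈ R, T w ⊆ {x | ∀ i, x i ≠ 0})
    (hTc : ∀ w ∈ R, ∃ b : ℕ, 0 < b ∧ w = 2 ^ s * b + 1 ∧ ∃ c : Fin (k + 1) → ZMod w,
      (∀ i, c i ≠ 0) ∧ ∀ x : Fin (k + 1) → ZMod w, (∀ i, x i ^ b = c i ^ b) →
        ∏ i, x i = ∏ i, c i → x ∈ T w) (ε : ℝ) (hε : 0 < ε) :
    ∃ F : Finset ℕ, (∀ w ∈ F, w ∈ R) ∧ ∃ X₀ : ℕ, ∀ X : ℕ, X₀ ≤ X →
      (((LL (k + 1) X).filter (fun l => ∀ w ∈ F, (fun i => (l i : ZMod w)) ∉ T w)).card : ℝ)
        ≤ ε * NN (k + 1) X := by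
  refine tuple_avoid k R (fun w hw => ⟨(hR w hw).1, (hR w hw).2.1⟩) hdiv T
    ((1 / 2 ^ s) ^ k) (by positivity) hT0 ?_ ε hε
  intro w hw
  obtain ⟨b, hb, hwb, c, hc, hTx⟩ := hTc w hw
  have hwp := (hR w hw).1
  have h6 := coset_card k w b hwp hb (by rw [hwb, Nat.add_sub_cancel]; exact dvd_mul_left _ _)
    c hc (T w) hTx
  have h7 : ((b : ℝ)) ^ k ≤ ((T w).ncard : ℝ) := by exact_mod_cast h6
  refine le_trans ?_ h7
  have hwr : (w : ℝ) - 1 = 2 ^ s * b := by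
    have : (w : ℝ) = 2 ^ s * b + 1 := by exact_mod_cast hwb
    linarith
  have hw0 : (0 : ℝ) < w := by exact_mod_cast hwp.pos
  have hle : 2 ^ s * (b : ℝ) ≤ w := by linarith
  rw [hwr, div_mul_eq_mul_div, div_le_iff₀ hw0]
  have h2s : (0 : ℝ) < 2 ^ s := by positivity
  calc (1 / 2 ^ s : ℝ) ^ k * (2 ^ s * (b : ℝ)) ^ (k + 1)
      = (b : ℝ) ^ k * (2 ^ s * b) := by
        rw [pow_succ (2 ^ s * (b : ℝ)) k, ← mul_assoc, ← mul_pow]
        congr 2
        field_simp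
    _ ≤ (b : ℝ) ^ k * w := mul_le_mul_of_nonneg_left hle (by positivity)

end Pool.Agent.TH66.HF
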