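import Mathlib
import Pool.Agent.TH66.HF.Tp
import Pool.Agent.TH66.HF.Dv
import Pool.Agent.TH66.SG.Key
import Pool.Agent.H951R4.OD.Design

/-!
# Difference sets with fixed `lam`: almost all orders with `k` prime factors, and their squares
-/

set_option autoImplicit false

namespace Pool.Agent.TH66.HF

open Finset Filter Topology
open Pool.Agent.TH66.SG (LL NN nilp_quot prod_surj mann mem_LL)
open Pool.Agent.H951R4.OD (ds_count schutz)
open Pool.Agent.H771R2.Lander (no_difference_set)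

/-- local conditions; `ε = 1`: `l 0` has even order, the others odd order, the product is `κ ^ 2` -/
def T1 (s k lam : ℕ) (w : ℕ) : Set (Fin (k + 1) → ZMod w) :=
  {x | ∃ (b : ℕ) (κ : ZMod w), Odd b ∧ w = 2 ^ s * b + 1 ∧ κ ^ 2 - κ + lam = 0 ∧ x 0 ^ b = -1 ∧
    (∀ i : Fin k, x i.succ ^ b = 1) ∧ ∏ i, x i = κ ^ 2}

/-- local conditions for squares, with a sign -/
def T2 (s k lam : ℕ) (ε : ℤ) (w : ℕ) : Set (Fin (k + 1) → ZMod w) :=
  {x | ∃ (b : ℕ) (κ : ZMod w), Odd b ∧ w = 2 ^ s * b + 1 ∧ κ ^ 2 - κ + lam = 0 ∧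
    x 0 ^ (2 * b) = -1 ∧ (∀ i : Fin k, x i.succ ^ b = -1) ∧ ∏ i, x i = (ε : ZMod w) * κ}

theorem neg_ne {w : ℕ} (hw : w.Prime) (hw2 : w ≠ 2) : (-1 : ZMod w) ≠ 1 := by
  intro h
  have : Fact w.Prime := ⟨hw⟩
  have h3 : (2 : ZMod w) = 0 := by linear_combination -h
  have h4 : ((2 : ℕ) : ZMod w) = 0 := by exact_mod_cast h3
  rw [ZMod.natCast_eq_zero_iff] at h4
  exact hw2 ((Nat.prime_dvd_prime_iff_eq hw Nat.prime_two).1 h4)

/-- `lam * v ≡ κ ^ 2 - κ + lam` if `k ≡ κ` -/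
theorem card_zero {G : Type} [Group G] [Fintype G] [DecidableEq G] (D : Finset G) {lam w : ℕ}
    (hw : w.Prime) (hlam : 1 ≤ lam) (hwl : lam < w)
    (hD : ∀ g : G, g ≠ 1 → ((D ×ˢ D).filter (fun p : G × G => p.1 * p.2⁻¹ = g)).card = lam)
    (κ : ZMod w) (hκ : κ ^ 2 - κ + lam = 0) (hk : (D.card : ZMod w) = κ) :
    w ∣ Fintype.card G := by
  have : Fact w.Prime := ⟨hw⟩
  have hcount := ds_count D D.card lam rfl hD
  have hv1 : 1 ≤ Fintype.card G := Fintype.card_pos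
  have h1 := congrArg (Nat.cast : ℕ → ZMod w) hcount
  push_cast [Nat.cast_sub hv1] at h1
  rw [hk] at h1
  have h2 : (lam : ZMod w) * (Fintype.card G : ZMod w) = 0 := by
    linear_combination hκ - h1
  rcases mul_eq_zero.1 h2 with h | h
  · exfalso
    rw [ZMod.natCast_eq_zero_iff] at h
    have := Nat.le_of_dvd (by omega) h
    omega
  · rwa [ZMod.natCast_eq_zero_iff] at h

theorem excl1 {s k lam w : ℕ} (hw : w.Prime) (hw2 : w ≠ 2) (hlam : 1 ≤ lam) (hwl : lam < w)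
    (l : Fin (k + 1) → ℕ) (hl : ∀ i, (l i).Prime)
    (h : (fun i => (l i : ZMod w)) ∈ T1 s k lam w)
    {G : Type} [Group G] [Fintype G] [DecidableEq G] (D : Finset G)
    (hk : D.card = (∏ i, l i) + lam)
    (hD : ∀ g : G, g ≠ 1 → ((D ×ˢ D).filter (fun p : G × G => p.1 * p.2⁻¹ = g)).card = lam) :
    False := by
  have hwf : Fact w.Prime := ⟨hw⟩
  obtain ⟨b, κ, hb, hwb, hκ, h0, h1, hprod⟩ := h
  have hneg := neg_ne hw hw2
  have hn : ((∏ i, l i : ℕ) : ZMod w) = κ ^ 2 := by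
    push_cast
    exact hprod
  have hkκ : (D.card : ZMod w) = κ := by
    rw [hk, Nat.cast_add, hn]
    linear_combination hκ
  have hdvd := card_zero D hw hlam hwl hD κ hκ hkκ
  have hfac : ∏ i, l i = l 0 * ∏ i : Fin k, l i.succ := Fin.prod_univ_succ _
  have hnd : ¬ l 0 ∣ ∏ i : Fin k, l i.succ := by
    intro hd
    obtain ⟨i, -, hi⟩ := (Prime.dvd_finsetProd_iff (hl 0).prime _).1 hd
    have h4 := (Nat.prime_dvd_prime_iff_eq (hl 0) (hl i.succ)).1 hi
    apply hneg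
    have e0 : (l 0 : ZMod w) ^ b = -1 := h0
    have e1 : (l i.succ : ZMod w) ^ b = 1 := h1 i
    rw [← e0, ← e1, h4]
  have hpos : 1 ≤ ∏ i, l i := Finset.prod_pos fun i _ => (hl i).pos
  have hodd : Odd (Fintype.card G) := by
    by_contra hcon
    rw [Nat.not_odd_iff_even] at hcon
    obtain ⟨y, hy⟩ := schutz D (∏ i, l i) lam hpos hk hD hcon
    have h5 : l 0 ∣ y := by
      have : l 0 ∣ y * y := by
        rw [← hy, hfac]
        exact dvd_mul_right _ _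
      rcases (hl 0).dvd_mul.1 this with h | h <;> exact h
    obtain ⟨z, rfl⟩ := h5
    apply hnd
    refine ⟨z * z, ?_⟩
    apply Nat.eq_of_mul_eq_mul_left (hl 0).pos
    rw [← hfac, hy]
    ring
  refine no_difference_set D ((∏ i, l i) + lam) lam hk hD hodd hw hdvd (hl 0) (j := b) h0 (a := 1)
    odd_one (u := ((∏ i : Fin k, l i.succ : ℕ) : ℤ)) ?_ ?_
  · intro hd
    exact hnd (by exact_mod_cast hd)
  · rw [hfac]
    push_cast
    ring

theorem excl2 {s k lam w₁ w₂ : ℕ} (hw₁ : w₁.Prime) (hw₂ : w₂.Prime) (ho₁ : w₁ ≠ 2) (ho₂ : w₂ ≠ 2)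
    (hlam : 1 ≤ lam) (hwl₁ : lam < w₁) (hwl₂ : lam < w₂)
    (l : Fin (k + 1) → ℕ) (hl : ∀ i, (l i).Prime)
    (hT₁ : (fun i => (l i : ZMod w₁)) ∈ T2 s k lam 1 w₁)
    (hT₂ : (fun i => (l i : ZMod w₂)) ∈ T2 s k lam (-1) w₂)
    {G : Type} [Group G] [Fintype G] [DecidableEq G] (hnil : Group.IsNilpotent G) (D : Finset G)
    (hk : D.card = (∏ i, l i) ^ 2 + lam)
    (hD : ∀ g : G, g ≠ 1 → ((D ×ˢ D).filter (fun p : G × G => p.1 * p.2⁻¹ = g)).card = lam) :
    False := by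
  have hwf₁ : Fact w₁.Prime := ⟨hw₁⟩
  have hwf₂ : Fact w₂.Prime := ⟨hw₂⟩
  obtain ⟨b₁, κ₁, hb₁, hwb₁, hκ₁, h0₁, h1₁, hprod₁⟩ := hT₁
  obtain ⟨b₂, κ₂, hb₂, hwb₂, hκ₂, h0₂, h1₂, hprod₂⟩ := hT₂
  obtain ⟨n, hn⟩ : ∃ n, n = ∏ i, l i := ⟨_, rfl⟩
  have hnp : 0 < n := by
    rw [hn]
    exact Finset.prod_pos fun i _ => (hl i).pos
  have hn₁ : (n : ZMod w₁) = κ₁ := by
    rw [hn]
    push_cast
    rw [hprod₁]
    push_cast
    ring
  have hn₂ : (n : ZMod w₂) = -κ₂ := by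
    rw [hn]
    push_cast
    rw [hprod₂]
    push_cast
    ring
  have two_ne : ∀ (w : ℕ) (_ : Fact w.Prime), w ≠ 2 → (2 : ZMod w) ≠ 0 := by
    intro w hw h2 h0
    have : ((2 : ℕ) : ZMod w) = 0 := by exact_mod_cast h0
    rw [ZMod.natCast_eq_zero_iff] at this
    exact h2 ((Nat.prime_dvd_prime_iff_eq hw.out Nat.prime_two).1 this)
  have hnz : ∀ (w : ℕ) (_ : Fact w.Prime) (κ : ZMod w), lam < w → κ ^ 2 - κ + lam = 0 → κ ≠ 0 := by
    intro w hw κ hlw hκ h0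
    rw [h0] at hκ
    have h4 : ((lam : ℕ) : ZMod w) = 0 := by
      rw [← hκ]
      ring
    rw [ZMod.natCast_eq_zero_iff] at h4
    have := Nat.le_of_dvd (by omega) h4
    omega
  have hne : w₁ ≠ w₂ := by
    rintro rfl
    have h5 : (κ₁ - κ₂) * (κ₁ + κ₂ - 1) = 0 := by linear_combination hκ₁ - hκ₂
    have h6 : κ₁ + κ₂ = 0 := by
      rw [hn₁] at hn₂
      linear_combination hn₂
    rcases mul_eq_zero.1 h5 with h | h
    · have h7 : 2 * κ₁ = 0 := by linear_combination h + h6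
      rcases mul_eq_zero.1 h7 with h | h
      · exact two_ne w₁ inferInstance ho₁ h
      · exact hnz w₁ inferInstance κ₁ hwl₁ hκ₁ h
    · have : (1 : ZMod w₁) = 0 := by linear_combination h6 - h
      exact one_ne_zero this
  rw [← hn] at hk
  have hk₁ : (D.card : ZMod w₁) = κ₁ := by
    rw [hk]
    push_cast
    rw [hn₁]
    linear_combination hκ₁
  have hk₂ : (D.card : ZMod w₂) = κ₂ := by
    rw [hk]
    push_cast
    rw [hn₂]
    linear_combination hκ₂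
  have hd₁ := card_zero D hw₁ hlam hwl₁ hD κ₁ hκ₁ hk₁
  have hd₂ := card_zero D hw₂ hlam hwl₂ hD κ₂ hκ₂ hk₂
  rw [← Nat.card_eq_fintype_card] at hd₁ hd₂
  obtain ⟨φ, hφ⟩ := nilp_quot G w₁ hd₁
  obtain ⟨ψ, hψ⟩ := nilp_quot G w₂ hd₂
  have hsurj := prod_surj G w₁ w₂ hne φ ψ hφ hψ
  have hcard : Fintype.card (Multiplicative (ZMod w₁) × Multiplicative (ZMod w₂)) = w₁ * w₂ := by
    rw [Fintype.card_prod]
    simp [ZMod.card]
  have hw₁3 : 3 ≤ w₁ := by
    have := hw₁.two_le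
    omega
  have hw₂3 : 3 ≤ w₂ := by
    have := hw₂.two_le
    omega
  have hM := mann (φ.prod ψ) hsurj D D.card lam n 1 (w₁ * w₂) rfl hD
    (by rw [hk]; ring) hcard one_pos (by nlinarith) hnp (by
      intro p hp hdvd
      rw [hn] at hdvd
      obtain ⟨i, -, hi⟩ := (Prime.dvd_finsetProd_iff hp.prime _).1 hdvd
      rw [(Nat.prime_dvd_prime_iff_eq hp (hl i)).1 hi]
      clear hi
      revert i
      intro i
      refine Fin.cases ?_ (fun i => ?_) i
      · refine ⟨2 * b₁ * b₂,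
          Nat.Coprime.mul_dvd_of_dvd_of_dvd ((Nat.coprime_primes hw₁ hw₂).2 hne) ?_ ?_⟩
        · rw [← ZMod.natCast_eq_zero_iff]
          push_cast
          rw [pow_mul, h0₁, hb₂.neg_one_pow, neg_add_cancel]
        · rw [← ZMod.natCast_eq_zero_iff]
          push_cast
          rw [mul_right_comm, pow_mul, h0₂, hb₁.neg_one_pow, neg_add_cancel]
      · refine ⟨b₁ * b₂,
          Nat.Coprime.mul_dvd_of_dvd_of_dvd ((Nat.coprime_primes hw₁ hw₂).2 hne) ?_ ?_⟩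
        · rw [← ZMod.natCast_eq_zero_iff]
          push_cast
          rw [pow_mul, h1₁ i, hb₂.neg_one_pow, neg_add_cancel]
        · rw [← ZMod.natCast_eq_zero_iff]
          push_cast
          rw [mul_comm b₁, pow_mul, h1₂ i, hb₁.neg_one_pow, neg_add_cancel])
  rcases hM with hM | hM
  · have h3 : (w₁ : ℤ) ∣ (D.card : ℤ) + n * 1 := (Dvd.intro _ (by push_cast; rfl)).trans hM
    have h4 : ((D.card : ZMod w₁) + n * 1) = 0 := by
      have := (ZMod.intCast_zmod_eq_zero_iff_dvd _ w₁).2 h3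
      exact_mod_cast this
    rw [hk₁, hn₁] at h4
    have h7 : 2 * κ₁ = 0 := by linear_combination h4
    rcases mul_eq_zero.1 h7 with h | h
    · exact two_ne w₁ inferInstance ho₁ h
    · exact hnz w₁ inferInstance κ₁ hwl₁ hκ₁ h
  · have h3 : (w₂ : ℤ) ∣ (D.card : ℤ) - n * 1 :=
      (Dvd.intro_left (w₁ : ℤ) (by push_cast; rfl)).trans hM
    have h4 : ((D.card : ZMod w₂) - n * 1) = 0 := by
      have := (ZMod.intCast_zmod_eq_zero_iff_dvd _ w₂).2 h3
      exact_mod_cast this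
    rw [hk₂, hn₂] at h4
    have h7 : 2 * κ₂ = 0 := by linear_combination h4
    rcases mul_eq_zero.1 h7 with h | h
    · exact two_ne w₂ inferInstance ho₂ h
    · exact hnz w₂ inferInstance κ₂ hwl₂ hκ₂ h

end Pool.Agent.TH66.HF
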