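import Mathlib
import Pool.Agent.TH66.HF.Ex
import Pool.Agent.TH66.SG.Tup6

/-!
# The two density theorems for difference sets
-/

set_option autoImplicit false

namespace Pool.Agent.TH66.HF

open Finset Filter Topology
open Pool.Agent.TH66.SG (LL NN mem_LL density_of_tuples)

theorem rr_facts {s lam w : ℕ} (hw : w ∈ RR s lam (lam + 2)) :
    w.Prime ∧ w ≠ 2 ∧ lam < w ∧ ∃ b : ℕ, Odd b ∧ w = 2 ^ s * b + 1 ∧
      ∃ κ : ZMod w, κ ^ 2 - κ + lam = 0 ∧ κ ^ (2 * b) = -1 ∧ κ ≠ 0 := by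
  obtain ⟨h1, h2, b, h3, h4, κ, h5, h6⟩ := hw
  have : Fact w.Prime := ⟨h1⟩
  refine ⟨h1, by omega, by omega, b, h3, h4, κ, h5, h6, ?_⟩
  intro h
  rw [h, zero_pow (by have := h3.pos; omega)] at h6
  have : (1 : ZMod w) = 0 := by linear_combination h6
  exact one_ne_zero this

theorem ne_zero_of_pow {F : Type} [Field F] {x : F} {n : ℕ} {y : F} (hn : n ≠ 0) (hy : y ≠ 0)
    (h : x ^ n = y) : x ≠ 0 := by
  rintro rfl
  rw [zero_pow hn] at h
  exact hy h.symm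

theorem avoid1 (s k lam : ℕ) (hdiv : ¬ Summable (fun n : ℕ =>
      (RR s lam (lam + 2)).indicator (fun n : ℕ => (1 : ℝ) / n) n)) (ε : ℝ) (hε : 0 < ε) :
    ∃ F : Finset ℕ, (∀ w ∈ F, w ∈ RR s lam (lam + 2)) ∧ ∃ X₀ : ℕ, ∀ X : ℕ, X₀ ≤ X →
      (open Classical in
        (((LL (k + 1) X).filter (fun l => ∀ w ∈ F, (fun i => (l i : ZMod w)) ∉ T1 s k lam w)).card : ℝ))
        ≤ ε * NN (k + 1) X := by
  refine tup_gen s k (RR s lam (lam + 2)) ?_ hdiv (T1 s k lam) ?_ ?_ ε hε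
  · intro w hw
    obtain ⟨h1, h2, -, b, h3, h4, -⟩ := rr_facts hw
    exact ⟨h1, h2, b, h3.pos, h4⟩
  · rintro w hw x ⟨b, κ, hb, hwb, hκ, h0, h1, -⟩ i
    have : Fact w.Prime := ⟨hw.1⟩
    have hb0 := hb.pos.ne'
    revert i
    refine Fin.cases ?_ (fun i => ?_)
    · exact ne_zero_of_pow hb0 (neg_ne_zero.2 one_ne_zero) h0
    · exact ne_zero_of_pow hb0 one_ne_zero (h1 i)
  · intro w hw
    obtain ⟨h1, h2, -, b, h3, h4, κ, h5, h6, h7⟩ := rr_facts hw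
    have : Fact w.Prime := ⟨h1⟩
    refine ⟨b, h3.pos, h4, Fin.cons (κ ^ 2) (fun _ => 1), ?_, ?_⟩
    · refine Fin.cases ?_ (fun i => ?_)
      · simpa using h7
      · simp
    · intro x hx hp
      refine ⟨b, κ, h3, h4, h5, ?_, fun i => ?_, ?_⟩
      · rw [hx 0, Fin.cons_zero, ← pow_mul, h6]
      · rw [hx i.succ, Fin.cons_succ, one_pow]
      · rw [hp, Fin.prod_univ_succ]
        simp

theorem avoid2 (s k lam : ℕ) (e : ℤ) (he : e = 1 ∨ e = -1) (hdiv : ¬ Summable (fun n : ℕ =>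
      (RR s lam (lam + 2)).indicator (fun n : ℕ => (1 : ℝ) / n) n)) (ε : ℝ) (hε : 0 < ε) :
    ∃ F : Finset ℕ, (∀ w ∈ F, w ∈ RR s lam (lam + 2)) ∧ ∃ X₀ : ℕ, ∀ X : ℕ, X₀ ≤ X →
      (open Classical in
        (((LL (k + 1) X).filter (fun l => ∀ w ∈ F, (fun i => (l i : ZMod w)) ∉
          T2 s k lam e w)).card : ℝ))
        ≤ ε * NN (k + 1) X := by
  refine tup_gen s k (RR s lam (lam + 2)) ?_ hdiv (T2 s k lam e) ?_ ?_ ε hε
  · intro w hw
    obtain ⟨h1, h2, -, b, h3, h4, -⟩ := rr_facts hw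
    exact ⟨h1, h2, b, h3.pos, h4⟩
  · rintro w hw x ⟨b, κ, hb, hwb, hκ, h0, h1, -⟩ i
    have : Fact w.Prime := ⟨hw.1⟩
    have hb0 := hb.pos.ne'
    revert i
    refine Fin.cases ?_ (fun i => ?_)
    · exact ne_zero_of_pow (by omega) (neg_ne_zero.2 one_ne_zero) h0
    · exact ne_zero_of_pow hb0 (neg_ne_zero.2 one_ne_zero) (h1 i)
  · intro w hw
    obtain ⟨h1, h2, -, b, h3, h4, κ, h5, h6, h7⟩ := rr_facts hw
    have : Fact w.Prime := ⟨h1⟩
    have he2 : ((e : ZMod w)) ^ 2 = 1 := by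
      rcases he with rfl | rfl <;> simp
    have he0 : (e : ZMod w) ≠ 0 := by
      intro h
      rw [h] at he2
      norm_num at he2
    have hk2 : ((-1 : ZMod w) ^ k) ^ 2 = 1 := by
      rw [← pow_mul, mul_comm, pow_mul]
      norm_num
    refine ⟨b, h3.pos, h4, Fin.cons ((e : ZMod w) * κ * (-1) ^ k) (fun _ => -1), ?_, ?_⟩
    · refine Fin.cases ?_ (fun i => ?_)
      · rw [Fin.cons_zero]
        exact mul_ne_zero (mul_ne_zero he0 h7) (pow_ne_zero _ (neg_ne_zero.2 one_ne_zero))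
      · simp
    · intro x hx hp
      refine ⟨b, κ, h3, h4, h5, ?_, fun i => ?_, ?_⟩
      · have h8 := hx 0
        rw [Fin.cons_zero] at h8
        rw [mul_comm 2 b, pow_mul, h8, ← pow_mul, mul_comm b 2, mul_pow, mul_pow, h6, pow_mul,
          he2, pow_mul, hk2, one_pow, one_mul, mul_one]
      · rw [hx i.succ, Fin.cons_succ, h3.neg_one_pow]
      · rw [hp, Fin.prod_univ_succ]
        simp only [Fin.cons_zero, Fin.cons_succ, prod_const, card_univ, Fintype.card_fin]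
        linear_combination ((e : ZMod w) * κ) * hk2

/-- there is a difference set with parameters `(v, n + lam, lam)` in some finite group, which is
nilpotent if `nil` holds -/
def HasDS (nil : Prop) (lam n : ℕ) : Prop :=
  ∃ (G : Type) (_ : Group G) (_ : Fintype G) (_ : DecidableEq G) (D : Finset G),
    (nil → Group.IsNilpotent G) ∧ D.card = n + lam ∧
    ∀ g : G, g ≠ 1 → ((D ×ˢ D).filter (fun p : G × G => p.1 * p.2⁻¹ = g)).card = lam

theorem main1 (lam j : ℕ) (hlam : 2 ≤ lam) (hj : 1 ≤ j) :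
    Tendsto (fun X : ℕ =>
      (({N : ℕ | N ≤ X ∧ N.primeFactorsList.length = j ∧ HasDS False lam N} : Set ℕ).ncard : ℝ) /
      (({N : ℕ | N ≤ X ∧ N.primeFactorsList.length = j} : Set ℕ).ncard : ℝ)) atTop (𝓝 0) := by
  classical
  obtain ⟨s, hs, hdiv⟩ := exists_diverges lam hlam
  obtain ⟨k, rfl⟩ : ∃ k, j = k + 1 := ⟨j - 1, by omega⟩
  refine density_of_tuples (by omega) _ fun ε hε => ?_
  obtain ⟨F, hF, X₀, hX₀⟩ := avoid1 s k lam (hdiv (lam + 2)) ε hε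
  refine ⟨X₀, fun X hX => le_trans ?_ (hX₀ X hX)⟩
  norm_cast
  refine Finset.card_le_card fun l hl => ?_
  rw [Finset.mem_filter] at hl ⊢
  obtain ⟨h1, G, i1, i2, i3, D, -, h3, h4⟩ := hl
  refine ⟨h1, fun w hw hT => ?_⟩
  obtain ⟨a1, a2, a3, -⟩ := rr_facts (hF w hw)
  exact excl1 a1 a2 (by omega) a3 l (mem_LL.1 h1).1 hT D h3 h4

theorem main2 (lam j : ℕ) (hlam : 2 ≤ lam) (hj : 1 ≤ j) :
    Tendsto (fun X : ℕ =>
      (({N : ℕ | N ≤ X ∧ N.primeFactorsList.length = j ∧ HasDS True lam (N ^ 2)} :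
        Set ℕ).ncard : ℝ) /
      (({N : ℕ | N ≤ X ∧ N.primeFactorsList.length = j} : Set ℕ).ncard : ℝ)) atTop (𝓝 0) := by
  classical
  obtain ⟨s, hs, hdiv⟩ := exists_diverges lam hlam
  obtain ⟨k, rfl⟩ : ∃ k, j = k + 1 := ⟨j - 1, by omega⟩
  refine density_of_tuples (by omega) _ fun ε hε => ?_
  obtain ⟨F₁, hF₁, X₁, hX₁⟩ := avoid2 s k lam 1 (Or.inl rfl) (hdiv (lam + 2)) (ε / 2) (by positivity)
  obtain ⟨F₂, hF₂, X₂, hX₂⟩ := avoid2 s k lam (-1) (Or.inr rfl) (hdiv (lam + 2)) (ε / 2)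
    (by positivity)
  refine ⟨max X₁ X₂, fun X hX => ?_⟩
  have h1 := hX₁ X (le_of_max_le_left hX)
  have h2 := hX₂ X (le_of_max_le_right hX)
  have hsub : (LL (k + 1) X).filter (fun l => HasDS True lam ((∏ i, l i) ^ 2)) ⊆
      (LL (k + 1) X).filter (fun l => ∀ w ∈ F₁, (fun i => (l i : ZMod w)) ∉ T2 s k lam 1 w) ∪
      (LL (k + 1) X).filter (fun l => ∀ w ∈ F₂, (fun i => (l i : ZMod w)) ∉ T2 s k lam (-1) w) := by
    intro l hl
    rw [mem_filter] at hl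
    rw [mem_union, mem_filter, mem_filter]
    by_contra hcon
    push Not at hcon
    obtain ⟨w₁, hw₁, e₁⟩ := hcon.1 hl.1
    obtain ⟨w₂, hw₂, e₂⟩ := hcon.2 hl.1
    obtain ⟨a1, a2, a3, -⟩ := rr_facts (hF₁ w₁ hw₁)
    obtain ⟨b1, b2, b3, -⟩ := rr_facts (hF₂ w₂ hw₂)
    obtain ⟨hlm, G, i1, i2, i3, D, h3, h4, h5⟩ := hl
    exact excl2 a1 b1 a2 b2 (by omega) a3 b3 l (mem_LL.1 hlm).1 e₁ e₂ (h3 trivial) D h4 h5
  have h3 := (card_le_card hsub).trans (card_union_le _ _)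
  have h4 := (Nat.cast_le (α := ℝ)).2 h3
  rw [Nat.cast_add] at h4
  linarith

end Pool.Agent.TH66.HF
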