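import Mathlib
import Pool.Agent.TH66.HF.Mn

/-!
# Hadamard difference sets of square order in nilpotent groups
-/

set_option autoImplicit false

namespace Pool.Agent.TH66.HF

open Finset Filter Topology
open Pool.Agent.TH66.SG (LL NN mem_LL density_of_tuples Good good_diverges nilp_quot prod_surj mann)

/-- the primes for Hadamard designs -/
def RD (B : ℕ) : Set ℕ := Good 3 1 B (fun _ : Fin 1 => 2) (fun _ => 1)

theorem rd_facts {B w : ℕ} (h : w ∈ RD B) : w.Prime ∧ B < w ∧ w ≠ 2 ∧ ∃ b : ℕ, Odd b ∧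
    w = 2 ^ 3 * b + 1 ∧ (4 : ZMod w) ^ b = -1 := by
  obtain ⟨h1, h2, b, h3, h4, -, g, h5, h6, -⟩ := h
  refine ⟨h1, h2, ?_, b, h3, h4, ?_⟩
  · have := h3.pos
    omega
  · have h7 := h6 0
    have e1 : (4 : ZMod w) = ((2 : ℕ) : ZMod w) ^ 2 := by
      push_cast
      norm_num
    rw [e1, ← pow_mul, mul_comm, pow_mul, h7, ← pow_mul, ← h5]
    norm_num

theorem rd_diverges (B : ℕ) :
    ¬ Summable (fun n : ℕ => (RD B).indicator (fun n : ℕ => (1 : ℝ) / n) n) :=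
  good_diverges 3 1 B le_rfl odd_one (fun _ : Fin 1 => 2) (fun _ => Nat.prime_two)
    (fun i j _ => Subsingleton.elim i j) _

/-- local conditions for squares -/
def T2D (k : ℕ) (e : ℤ) (w : ℕ) : Set (Fin (k + 1) → ZMod w) :=
  {x | ∃ b : ℕ, Odd b ∧ w = 2 ^ 3 * b + 1 ∧ x 0 ^ (2 * b) = -1 ∧
    (∀ i : Fin k, x i.succ ^ b = -1) ∧ 2 * ∏ i, x i = (e : ZMod w)}

theorem avoidD2 (k : ℕ) (e : ℤ) (he : e = 1 ∨ e = -1) (ε : ℝ) (hε : 0 < ε) :
    ∃ F : Finset ℕ, (∀ w ∈ F, w ∈ RD 2) ∧ ∃ X₀ : ℕ, ∀ X : ℕ, X₀ ≤ X →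
      (open Classical in
        (((LL (k + 1) X).filter (fun l => ∀ w ∈ F, (fun i => (l i : ZMod w)) ∉ T2D k e w)).card : ℝ))
        ≤ ε * NN (k + 1) X := by
  refine tup_gen 3 k (RD 2) ?_ (rd_diverges 2) (T2D k e) ?_ ?_ ε hε
  · intro w hw
    obtain ⟨h1, -, h2, b, h3, h4, -⟩ := rd_facts hw
    exact ⟨h1, h2, b, h3.pos, h4⟩
  · rintro w hw x ⟨b, hb, hwb, h0, h1, -⟩ i
    have : Fact w.Prime := ⟨hw.1⟩
    have hb0 := hb.pos.ne'
    revert i
    refine Fin.cases ?_ (fun i => ?_)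
    · exact ne_zero_of_pow (by omega) (neg_ne_zero.2 one_ne_zero) h0
    · exact ne_zero_of_pow hb0 (neg_ne_zero.2 one_ne_zero) (h1 i)
  · intro w hw
    obtain ⟨h1, -, h2, b, h3, h4, h5⟩ := rd_facts hw
    have : Fact w.Prime := ⟨h1⟩
    have h40 : (4 : ZMod w) ≠ 0 := ne_zero_of_pow h3.pos.ne' (neg_ne_zero.2 one_ne_zero) h5
    have h20 : (2 : ZMod w) ≠ 0 := by
      intro h
      apply h40
      have : (4 : ZMod w) = 2 * 2 := by norm_num
      rw [this, h, mul_zero]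
    have he2 : ((e : ZMod w)) ^ 2 = 1 := by
      rcases he with rfl | rfl <;> simp
    have he0 : (e : ZMod w) ≠ 0 := by
      intro h
      rw [h] at he2
      norm_num at he2
    have hk2 : ((-1 : ZMod w) ^ k) ^ 2 = 1 := by
      rw [← pow_mul, mul_comm, pow_mul]
      norm_num
    have h22 : ((2 : ZMod w)⁻¹) ^ (2 * b) = -1 := by
      rw [pow_mul, inv_pow 2 2, show (2 : ZMod w) ^ 2 = 4 by norm_num, inv_pow, h5, inv_neg, inv_one]
    refine ⟨b, h3.pos, h4, Fin.cons ((e : ZMod w) * 2⁻¹ * (-1) ^ k) (fun _ => -1), ?_, ?_⟩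
    · refine Fin.cases ?_ (fun i => ?_)
      · rw [Fin.cons_zero]
        exact mul_ne_zero (mul_ne_zero he0 (inv_ne_zero h20))
          (pow_ne_zero _ (neg_ne_zero.2 one_ne_zero))
      · simp
    · intro x hx hp
      refine ⟨b, h3, h4, ?_, fun i => ?_, ?_⟩
      · have h8 := hx 0
        rw [Fin.cons_zero] at h8
        rw [mul_comm 2 b, pow_mul, h8, ← pow_mul, mul_comm b 2, mul_pow, mul_pow, h22, pow_mul,
          he2, pow_mul, hk2, one_pow, one_mul, mul_one]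
      · rw [hx i.succ, Fin.cons_succ, h3.neg_one_pow]
      · rw [hp, Fin.prod_univ_succ]
        simp only [Fin.cons_zero, Fin.cons_succ, prod_const, card_univ, Fintype.card_fin]
        have h9 : (2 : ZMod w) * 2⁻¹ = 1 := mul_inv_cancel₀ h20
        linear_combination (e : ZMod w) * 2 * 2⁻¹ * hk2 + (e : ZMod w) * h9

theorem excl_had2 {k w₁ w₂ : ℕ} (hw₁ : w₁.Prime) (hw₂ : w₂.Prime) (ho₁ : w₁ ≠ 2) (ho₂ : w₂ ≠ 2)
    (l : Fin (k + 1) → ℕ) (hl : ∀ i, (l i).Prime)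
    (hT₁ : (fun i => (l i : ZMod w₁)) ∈ T2D k 1 w₁)
    (hT₂ : (fun i => (l i : ZMod w₂)) ∈ T2D k (-1) w₂)
    (n : ℕ) (hn : n = ∏ i, l i) (hn2 : 2 ≤ n)
    {G : Type} [Group G] [Fintype G] [DecidableEq G] (hnil : Group.IsNilpotent G) (D : Finset G)
    (hk : D.card = 2 * n ^ 2 - 1)
    (hD : ∀ g : G, g ≠ 1 → ((D ×ˢ D).filter (fun p : G × G => p.1 * p.2⁻¹ = g)).card = n ^ 2 - 1) :
    False := by
  have hwf₁ : Fact w₁.Prime := ⟨hw₁⟩
  have hwf₂ : Fact w₂.Prime := ⟨hw₂⟩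
  obtain ⟨b₁, hb₁, hwb₁, h0₁, h1₁, hprod₁⟩ := hT₁
  obtain ⟨b₂, hb₂, hwb₂, h0₂, h1₂, hprod₂⟩ := hT₂
  have hnp : 0 < n := by omega
  have hn₁ : (2 * n : ZMod w₁) = 1 := by
    rw [hn]
    push_cast
    rw [hprod₁]
    simp
  have hn₂ : (2 * n : ZMod w₂) = -1 := by
    rw [hn]
    push_cast
    rw [hprod₂]
    simp
  have hne : w₁ ≠ w₂ := by
    rintro rfl
    exact neg_ne hw₁ ho₁ (hn₂.symm.trans hn₁)
  have hsq : 4 ≤ n ^ 2 := by nlinarith
  have hcount := Pool.Agent.H951R4.OD.ds_count D (2 * n ^ 2 - 1) (n ^ 2 - 1) hk hD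
  have hcard : Fintype.card G = 4 * n ^ 2 - 1 := by
    have hpos : 1 ≤ Fintype.card G := Fintype.card_pos
    obtain ⟨u, hu⟩ : ∃ u, Fintype.card G = u + 1 := ⟨Fintype.card G - 1, by omega⟩
    obtain ⟨m, hm⟩ : ∃ m, n ^ 2 = m + 2 := ⟨n ^ 2 - 2, by omega⟩
    rw [hu, hm] at hcount ⊢
    simp only [show 2 * (m + 2) - 1 = 2 * m + 3 by omega, show m + 2 - 1 = m + 1 by omega,
      Nat.add_sub_cancel] at hcount
    have h5 : (m + 1) * (2 * (2 * m + 3)) = (m + 1) * u := by nlinarith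
    have h6 := Nat.eq_of_mul_eq_mul_left (by omega) h5
    omega
  have hd₁ : w₁ ∣ Nat.card G := by
    rw [Nat.card_eq_fintype_card, hcard, ← ZMod.natCast_eq_zero_iff, Nat.cast_sub (by omega)]
    push_cast
    linear_combination (2 * n + 1 : ZMod w₁) * hn₁
  have hd₂ : w₂ ∣ Nat.card G := by
    rw [Nat.card_eq_fintype_card, hcard, ← ZMod.natCast_eq_zero_iff, Nat.cast_sub (by omega)]
    push_cast
    linear_combination (2 * n - 1 : ZMod w₂) * hn₂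
  obtain ⟨φ, hφ⟩ := nilp_quot G w₁ hd₁
  obtain ⟨ψ, hψ⟩ := nilp_quot G w₂ hd₂
  have hsurj := prod_surj G w₁ w₂ hne φ ψ hφ hψ
  have hcard2 : Fintype.card (Multiplicative (ZMod w₁) × Multiplicative (ZMod w₂)) = w₁ * w₂ := by
    rw [Fintype.card_prod]
    simp [ZMod.card]
  have hw₁3 : 3 ≤ w₁ := by
    have := hw₁.two_le
    omega
  have hw₂3 : 3 ≤ w₂ := by
    have := hw₂.two_le
    omega
  have hM := mann (φ.prod ψ) hsurj D D.card (n ^ 2 - 1) n 1 (w₁ * w₂) rfl hD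
    (by rw [hk, mul_one]; omega) hcard2 one_pos (by nlinarith) hnp (by
      intro p hp hdvd
      rw [hn] at hdvd
      obtain ⟨i, -, hi⟩ := (Prime.dvd_finsetProd_iff hp.prime _).1 hdvd
      rw [(Nat.prime_dvd_prime_iff_eq hp (hl i)).1 hi]
      clear hi
      revert i
      intro i
      refine Fin.cases ?_ (fun i => ?_) i
      · refine ⟨2 * b₁ * b₂,
          Nat.Coprime.mul_dvd_of_dvd_of_dvd ((Nat.coprime_primes hw₁ hw₂).2 hne) ?_ ?_⟩
        · rw [← ZMod.natCast_eq_zero_iff]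
          push_cast
          rw [pow_mul, h0₁, hb₂.neg_one_pow, neg_add_cancel]
        · rw [← ZMod.natCast_eq_zero_iff]
          push_cast
          rw [mul_right_comm, pow_mul, h0₂, hb₁.neg_one_pow, neg_add_cancel]
      · refine ⟨b₁ * b₂,
          Nat.Coprime.mul_dvd_of_dvd_of_dvd ((Nat.coprime_primes hw₁ hw₂).2 hne) ?_ ?_⟩
        · rw [← ZMod.natCast_eq_zero_iff]
          push_cast
          rw [pow_mul, h1₁ i, hb₂.neg_one_pow, neg_add_cancel]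
        · rw [← ZMod.natCast_eq_zero_iff]
          push_cast
          rw [mul_comm b₁, pow_mul, h1₂ i, hb₁.neg_one_pow, neg_add_cancel])
  have hkc : ∀ w : ℕ, (D.card : ZMod w) = 2 * (n : ZMod w) ^ 2 - 1 := by
    intro w
    rw [hk, Nat.cast_sub (by omega)]
    push_cast
    ring
  rcases hM with hM | hM
  · -- `k + n ≡ 0` modulo `w₂`, where `k ≡ n`
    have h3 : (w₂ : ℤ) ∣ (D.card : ℤ) + n * 1 :=
      (Dvd.intro_left (w₁ : ℤ) (by push_cast; rfl)).trans hM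
    have h4 : ((D.card : ZMod w₂) + n * 1) = 0 := by
      have := (ZMod.intCast_zmod_eq_zero_iff_dvd _ w₂).2 h3
      exact_mod_cast this
    rw [hkc] at h4
    have h5 : (1 : ZMod w₂) = 0 := by
      linear_combination (n : ZMod w₂) * hn₂ - h4
    exact one_ne_zero h5
  · -- `k - n ≡ 0` modulo `w₁`, where `k ≡ - n`
    have h3 : (w₁ : ℤ) ∣ (D.card : ℤ) - n * 1 := (Dvd.intro _ (by push_cast; rfl)).trans hM
    have h4 : ((D.card : ZMod w₁) - n * 1) = 0 := by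
      have := (ZMod.intCast_zmod_eq_zero_iff_dvd _ w₁).2 h3
      exact_mod_cast this
    rw [hkc] at h4
    have h5 : (1 : ZMod w₁) = 0 := by
      linear_combination (n : ZMod w₁) * hn₁ - h4
    exact one_ne_zero h5

/-- a nilpotent group contains a difference set of Hadamard type of order `n` -/
def HasHadNil (n : ℕ) : Prop :=
  2 ≤ n ∧ ∃ (G : Type) (_ : Group G) (_ : Fintype G) (_ : DecidableEq G) (D : Finset G),
    Group.IsNilpotent G ∧ D.card = 2 * n - 1 ∧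
    ∀ g : G, g ≠ 1 → ((D ×ˢ D).filter (fun p : G × G => p.1 * p.2⁻¹ = g)).card = n - 1

theorem main5 (j : ℕ) (hj : 1 ≤ j) :
    Tendsto (fun X : ℕ =>
      (({N : ℕ | N ≤ X ∧ N.primeFactorsList.length = j ∧ HasHadNil (N ^ 2)} : Set ℕ).ncard : ℝ) /
      (({N : ℕ | N ≤ X ∧ N.primeFactorsList.length = j} : Set ℕ).ncard : ℝ)) atTop (𝓝 0) := by
  classical
  obtain ⟨k, rfl⟩ : ∃ k, j = k + 1 := ⟨j - 1, by omega⟩
  refine density_of_tuples (by omega) _ fun ε hε => ?_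
  obtain ⟨F₁, hF₁, X₁, hX₁⟩ := avoidD2 k 1 (Or.inl rfl) (ε / 2) (by positivity)
  obtain ⟨F₂, hF₂, X₂, hX₂⟩ := avoidD2 k (-1) (Or.inr rfl) (ε / 2) (by positivity)
  refine ⟨max X₁ X₂, fun X hX => ?_⟩
  have h1 := hX₁ X (le_of_max_le_left hX)
  have h2 := hX₂ X (le_of_max_le_right hX)
  have hsub : (LL (k + 1) X).filter (fun l => HasHadNil ((∏ i, l i) ^ 2)) ⊆
      (LL (k + 1) X).filter (fun l => ∀ w ∈ F₁, (fun i => (l i : ZMod w)) ∉ T2D k 1 w) ∪
      (LL (k + 1) X).filter (fun l => ∀ w ∈ F₂, (fun i => (l i : ZMod w)) ∉ T2D k (-1) w) := by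
    intro l hl
    rw [mem_filter] at hl
    rw [mem_union, mem_filter, mem_filter]
    by_contra hcon
    push Not at hcon
    obtain ⟨w₁, hw₁, e₁⟩ := hcon.1 hl.1
    obtain ⟨w₂, hw₂, e₂⟩ := hcon.2 hl.1
    obtain ⟨a1, -, a3, -⟩ := rd_facts (hF₁ w₁ hw₁)
    obtain ⟨b1, -, b3, -⟩ := rd_facts (hF₂ w₂ hw₂)
    obtain ⟨hlm, hn2, G, i1, i2, i3, D, h3, h4, h5⟩ := hl
    have hlp := (mem_LL.1 hlm).1
    have hge : 2 ≤ ∏ i, l i := by
      by_contra hcon2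
      have h6 : ∏ i, l i = 0 ∨ ∏ i, l i = 1 := by omega
      rcases h6 with h6 | h6 <;> rw [h6] at hn2 <;> omega
    exact excl_had2 a1 b1 a3 b3 l hlp e₁ e₂ _ rfl hge h3 D h4 h5
  have h3 := (card_le_card hsub).trans (card_union_le _ _)
  have h4 := (Nat.cast_le (α := ℝ)).2 h3
  rw [Nat.cast_add] at h4
  linarith

end Pool.Agent.TH66.HF
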