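import Mathlib
import Pool.Agent.H634R3.WG.Lam

/-!
# The test for solvable point-transitive groups with an arbitrary exponent

This is `Pool.Agent.H634R3.WG.Lam.test_trans` (starting files), where `r` is a quadratic nonresidue
modulo `q`; here `r ^ j = -1` modulo `q` for some `j`.
-/

set_option autoImplicit false

namespace Pool.Agent.TH66.HF

open Finset Pool.Agent.H634R3.PPC Pool.Agent.H951R4.OD MulAction
open Pool.Agent.H634R3.WG.Lam

theorem test_trans' {v k lam : ℕ} {B : Fin v → Finset (Fin v)} {H : Subgroup (Equiv.Perm (Fin v))}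
    (h : TransDesign v k lam B H) (hv : 2 ≤ v) (hlam : 1 ≤ lam) (hodd : Odd v) {r q j : ℕ}
    (hrp : r.Prime) (hq : q.Prime) (hq2 : q ≠ 2) (hqv : q ∣ v) (hqv2 : ¬ q ^ 2 ∣ v)
    (hrn : r ∣ k - lam) (hrn2 : ¬ r ^ 2 ∣ k - lam) (hch : (r : ZMod q) ^ j = -1) : False := by
  classical
  have hinj := blocks_inj hv hlam h.kv h.size h.pair
  have hq3 : 2 < q := lt_of_le_of_ne hq.two_le (Ne.symm hq2)
  have : Fintype (pairs B H) := Fintype.ofFinite _
  have hmem : ∀ g : pairs B H, g.1.1 ∈ H := fun g => g.2.1
  have hsolv : Group.IsSolvable (pairs B H) := by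
    have := h.solv
    let φ : pairs B H →* H :=
      { toFun := fun g => ⟨g.1.1, g.2.1⟩
        map_one' := rfl
        map_mul' := fun a b => rfl }
    have hφ : Function.Injective φ := by
      intro a b hab
      have h1 : a.1.1 = b.1.1 := congrArg Subtype.val hab
      apply Subtype.ext
      refine Prod.ext h1 ?_
      ext1 i
      apply hinj
      ext x
      have h2 := a.2.2 (a.1.1.symm x) i
      have h3 := b.2.2 (b.1.1.symm x) i
      rw [Equiv.apply_symm_apply] at h2 h3
      rw [h2, h3, h1]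
    exact Group.isSolvable_of_isSolvable_injective hφ
  obtain ⟨u, hu⟩ := hrn
  refine solv_test hsolv (des_blk hv hlam h.kv h.size h.pair) ?_ ?_ hq hq3 ?_ ?_ ?_ hrp
    (j := j) ?_ odd_one (u := u) ?_ (by rw [pow_one]; exact hu)
  · intro g p b
    exact g.2.2 p b.i
  · intro x y
    obtain ⟨g, hg, hgx⟩ := h.trans x y
    choose τ hτ using h.aut g hg
    have hτi : Function.Injective τ := by
      intro i j hij
      apply hinj
      have h1 := hτ i
      rw [hij, ← hτ j] at h1
      exact Finset.image_injective g.injective h1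
    refine ⟨⟨(g, Equiv.ofBijective τ (Finite.injective_iff_bijective.1 hτi)), hg, ?_⟩, hgx⟩
    intro z i
    show g z ∈ B (τ i) ↔ z ∈ B i
    rw [← hτ i, Finset.mem_image]
    constructor
    · rintro ⟨w, hw, hwz⟩
      rwa [← g.injective hwz]
    · intro hz
      exact ⟨z, hz, rfl⟩
  · rw [Fintype.card_fin]
    exact hqv
  · rw [Fintype.card_fin]
    exact hqv2
  · rw [Fintype.card_fin]
    exact hodd
  · exact hch
  · rintro ⟨w, rfl⟩
    apply hrn2
    rw [hu]
    exact ⟨w, by ring⟩

end Pool.Agent.TH66.HF
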