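import Mathlib
import Pool.Agent.TH66.HF.Eq
import Pool.Agent.TH66.HF.Tr
import Pool.Agent.TH66.HF.Mn
import Pool.Agent.TH66.HF.Hd2
import Pool.Agent.TH66.HF.Reg

/-!
# Solvable point-transitive groups: fixed `lam`, and Hadamard designs
-/

set_option autoImplicit false

namespace Pool.Agent.TH66.HF

open Finset Filter Topology
open Pool.Agent.TH66.SG (LL NN mem_LL density_of_tuples Good good_diverges)
open Pool.Agent.H634R3.WG.Lam (TransDesign schutz_design)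
open Pool.Agent.H951R4.OD (repl design_facts)
open Pool.Agent.H771R2.Lander (no_difference_set)

/-- `w ^ 2 ∣ lam * v` for the order `x` -/
def PH (lam w : ℕ) (x : ZMod (w ^ 2)) : Prop := x ^ 2 + (2 * lam - 1) * x + lam ^ 2 = 0

theorem ph_roots (lam w : ℕ) (hw : w.Prime) (hwl : 4 * lam < w) (hlam : 1 ≤ lam) :
    ∃ y z : ZMod (w ^ 2), ∀ x, PH lam w x → x = y ∨ x = z := by
  have hne : NeZero (w ^ 2) := ⟨(pow_pos hw.pos 2).ne'⟩
  by_cases hex : ∃ y, PH lam w y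
  · obtain ⟨y, hy⟩ := hex
    refine ⟨y, 1 - 2 * lam - y, fun x hx => ?_⟩
    obtain ⟨X, rfl⟩ := ZMod.intCast_surjective x
    obtain ⟨Y, rfl⟩ := ZMod.intCast_surjective y
    unfold PH at hx hy
    have h1 : ((w ^ 2 : ℕ) : ℤ) ∣ X ^ 2 + (2 * lam - 1) * X + lam ^ 2 := by
      rw [← ZMod.intCast_zmod_eq_zero_iff_dvd]
      push_cast
      exact hx
    have h2 : ((w ^ 2 : ℕ) : ℤ) ∣ Y ^ 2 + (2 * lam - 1) * Y + lam ^ 2 := by
      rw [← ZMod.intCast_zmod_eq_zero_iff_dvd]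
      push_cast
      exact hy
    push_cast at h1 h2
    have h3 : (w : ℤ) ^ 2 ∣ (X - Y) * (X + Y + 2 * lam - 1) := by
      have e : (X - Y) * (X + Y + 2 * lam - 1) = (X ^ 2 + (2 * lam - 1) * X + lam ^ 2) -
          (Y ^ 2 + (2 * lam - 1) * Y + lam ^ 2) := by ring
      rw [e]
      exact dvd_sub h1 h2
    have hwi : Prime (w : ℤ) := Nat.prime_iff_prime_int.1 hw
    by_cases h4 : (w : ℤ) ∣ X - Y
    · have h5 : ¬ (w : ℤ) ∣ X + Y + 2 * lam - 1 := by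
        intro h5
        have h6 : (w : ℤ) ∣ 2 * X + 2 * lam - 1 := by
          have e : 2 * X + 2 * lam - 1 = (X - Y) + (X + Y + 2 * lam - 1) := by ring
          rw [e]
          exact dvd_add h4 h5
        have h7 : (w : ℤ) ∣ X ^ 2 + (2 * lam - 1) * X + lam ^ 2 := (dvd_pow_self _ (by norm_num)).trans h1
        have h8 : (w : ℤ) ∣ 4 * lam - 1 := by
          have h9 := dvd_sub (dvd_mul_of_dvd_right h7 4) (dvd_mul_of_dvd_right h6 (2 * X + 2 * lam - 1))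
          have e : 4 * (lam : ℤ) - 1 = 4 * (X ^ 2 + (2 * lam - 1) * X + lam ^ 2) -
              (2 * X + 2 * lam - 1) * (2 * X + 2 * lam - 1) := by ring
          rw [e]
          exact h9
        have h9 := Int.le_of_dvd (by omega) h8
        omega
      have h6 : (w : ℤ) ^ 2 ∣ X - Y := by
        have hcop : IsCoprime ((w : ℤ) ^ 2) (X + Y + 2 * lam - 1) :=
          IsCoprime.pow_left ((hwi.coprime_iff_not_dvd).2 h5)
        exact hcop.dvd_of_dvd_mul_right h3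
      left
      have h7 : ((X - Y : ℤ) : ZMod (w ^ 2)) = 0 := by
        rw [ZMod.intCast_zmod_eq_zero_iff_dvd]
        exact_mod_cast h6
      push_cast at h7
      exact sub_eq_zero.1 h7
    · right
      have h6 : (w : ℤ) ^ 2 ∣ X + Y + 2 * lam - 1 := by
        have hcop : IsCoprime ((w : ℤ) ^ 2) (X - Y) :=
          IsCoprime.pow_left ((hwi.coprime_iff_not_dvd).2 h4)
        exact hcop.dvd_of_dvd_mul_left h3
      have h7 : ((X + Y + 2 * lam - 1 : ℤ) : ZMod (w ^ 2)) = 0 := by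
        rw [ZMod.intCast_zmod_eq_zero_iff_dvd]
        exact_mod_cast h6
      push_cast at h7
      linear_combination h7
  · exact ⟨0, 0, fun x hx => absurd ⟨x, hx⟩ hex⟩

/-- the first prime exactly divides the product -/
theorem exact_dvd {k : ℕ} (l : Fin (k + 1) → ℕ) (hl : ∀ i, (l i).Prime)
    (hnd : ¬ l 0 ∣ ∏ i : Fin k, l i.succ) :
    l 0 ∣ ∏ i, l i ∧ ¬ l 0 ^ 2 ∣ ∏ i, l i := by
  rw [Fin.prod_univ_succ]
  refine ⟨dvd_mul_right _ _, fun h => hnd ?_⟩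
  rw [pow_two] at h
  exact Nat.dvd_of_mul_dvd_mul_left (hl 0).pos h

theorem not_square {k : ℕ} (l : Fin (k + 1) → ℕ) (hl : ∀ i, (l i).Prime)
    (hnd : ¬ l 0 ∣ ∏ i : Fin k, l i.succ) : ¬ IsSquare (∏ i, l i) := by
  rintro ⟨y, hy⟩
  obtain ⟨h1, h2⟩ := exact_dvd l hl hnd
  apply h2
  rw [hy] at h1 ⊢
  have h3 : l 0 ∣ y := by
    rcases (hl 0).dvd_mul.1 h1 with h | h <;> exact h
  rw [pow_two]
  exact Nat.mul_dvd_mul h3 h3

theorem excl_trans {s k lam w : ℕ} (hw : w.Prime) (hw2 : w ≠ 2) (hlam : 1 ≤ lam) (hwl : lam < w)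
    (l : Fin (k + 1) → ℕ) (hl : ∀ i, (l i).Prime)
    (h : (fun i => (l i : ZMod w)) ∈ T1 s k lam w)
    (hP : ¬ PH lam w ((∏ i, l i : ℕ) : ZMod (w ^ 2)))
    {v : ℕ} {B : Fin v → Finset (Fin v)} {H : Subgroup (Equiv.Perm (Fin v))}
    (hd : TransDesign v ((∏ i, l i) + lam) lam B H) (hv : 2 ≤ v) : False := by
  have hwf : Fact w.Prime := ⟨hw⟩
  obtain ⟨b, κ, hb, hwb, hκ, h0, h1, hprod⟩ := h
  have hneg := neg_ne hw hw2
  have hn : ((∏ i, l i : ℕ) : ZMod w) = κ ^ 2 := by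
    push_cast
    exact hprod
  have hnd : ¬ l 0 ∣ ∏ i : Fin k, l i.succ := by
    intro hd
    obtain ⟨i, -, hi⟩ := (Prime.dvd_finsetProd_iff (hl 0).prime _).1 hd
    have h4 := (Nat.prime_dvd_prime_iff_eq (hl 0) (hl i.succ)).1 hi
    apply hneg
    have e0 : (l 0 : ZMod w) ^ b = -1 := h0
    have e1 : (l i.succ : ZMod w) ^ b = 1 := h1 i
    rw [← e0, ← e1, h4]
  obtain ⟨he1, he2⟩ := exact_dvd l hl hnd
  obtain ⟨-, hcount⟩ := repl v _ lam hv hlam B hd.size hd.pair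
  obtain ⟨n, hnn⟩ : ∃ n, n = ∏ i, l i := ⟨_, rfl⟩
  rw [← hnn] at hn he1 he2 hcount hP hd
  have hvl : lam * v + (n + lam) = (n + lam) * (n + lam) + lam := by
    rw [hcount]
    obtain ⟨u, rfl⟩ : ∃ u, v = u + 1 := ⟨v - 1, by omega⟩
    rw [Nat.add_sub_cancel]
    ring
  have hwv : w ∣ v := by
    have h2 := congrArg (Nat.cast : ℕ → ZMod w) hvl
    push_cast at h2
    rw [hn] at h2
    have h3 : (lam : ZMod w) * v = 0 := by
      linear_combination h2 + (κ ^ 2 + κ + lam) * hκ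
    rcases mul_eq_zero.1 h3 with h | h
    · exfalso
      rw [ZMod.natCast_eq_zero_iff] at h
      have := Nat.le_of_dvd (by omega) h
      omega
    · rwa [ZMod.natCast_eq_zero_iff] at h
  have hwv2 : ¬ w ^ 2 ∣ v := by
    rintro ⟨u, rfl⟩
    apply hP
    have h2 := congrArg (Nat.cast : ℕ → ZMod (w ^ 2)) hvl
    have h4 : ((w ^ 2 : ℕ) : ZMod (w ^ 2)) = 0 := ZMod.natCast_self _
    rw [Nat.cast_add, Nat.cast_mul, Nat.cast_mul (w ^ 2), h4] at h2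
    push_cast at h2
    unfold PH
    linear_combination -h2
  have hodd : Odd v := by
    by_contra hcon
    rw [Nat.not_odd_iff_even] at hcon
    have h5 := schutz_design hv hlam hd.kv hd.size hd.pair hcon
    rw [Nat.add_sub_cancel, hnn] at h5
    exact not_square l hl hnd h5
  refine test_trans' hd hv hlam hodd (hl 0) hw hw2 hwv hwv2 (j := b) ?_ ?_ h0
  · rw [Nat.add_sub_cancel]
    exact he1
  · rw [Nat.add_sub_cancel]
    exact he2

/-- there is a symmetric design of order `n` with a solvable point-transitive group -/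
def HasTrans (lam n : ℕ) : Prop :=
  ∃ (v : ℕ) (B : Fin v → Finset (Fin v)) (H : Subgroup (Equiv.Perm (Fin v))),
    2 ≤ v ∧ TransDesign v (n + lam) lam B H

theorem rr_mono {s lam B B' : ℕ} (h : B ≤ B') : RR s lam B' ⊆ RR s lam B := by
  rintro w ⟨h1, h2, h3⟩
  exact ⟨h1, by omega, h3⟩

theorem avoid1' (s k lam B : ℕ) (hB : lam + 2 ≤ B) (hdiv : ¬ Summable (fun n : ℕ =>
      (RR s lam B).indicator (fun n : ℕ => (1 : ℝ) / n) n)) (ε : ℝ) (hε : 0 < ε) :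
    ∃ F : Finset ℕ, (∀ w ∈ F, w ∈ RR s lam B) ∧ ∃ X₀ : ℕ, ∀ X : ℕ, X₀ ≤ X →
      (open Classical in
        (((LL (k + 1) X).filter (fun l => ∀ w ∈ F, (fun i => (l i : ZMod w)) ∉ T1 s k lam w)).card : ℝ))
        ≤ ε * NN (k + 1) X := by
  refine tup_gen s k (RR s lam B) ?_ hdiv (T1 s k lam) ?_ ?_ ε hε
  · intro w hw
    obtain ⟨h1, h2, -, b, h3, h4, -⟩ := rr_facts (rr_mono hB hw)
    exact ⟨h1, h2, b, h3.pos, h4⟩
  · rintro w hw x ⟨b, κ, hb, hwb, hκ, h0, h1, -⟩ i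
    have : Fact w.Prime := ⟨hw.1⟩
    have hb0 := hb.pos.ne'
    revert i
    refine Fin.cases ?_ (fun i => ?_)
    · exact ne_zero_of_pow hb0 (neg_ne_zero.2 one_ne_zero) h0
    · exact ne_zero_of_pow hb0 one_ne_zero (h1 i)
  · intro w hw
    obtain ⟨h1, h2, -, b, h3, h4, κ, h5, h6, h7⟩ := rr_facts (rr_mono hB hw)
    have : Fact w.Prime := ⟨h1⟩
    refine ⟨b, h3.pos, h4, Fin.cons (κ ^ 2) (fun _ => 1), ?_, ?_⟩
    · refine Fin.cases ?_ (fun i => ?_)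
      · simpa using h7
      · simp
    · intro x hx hp
      refine ⟨b, κ, h3, h4, h5, ?_, fun i => ?_, ?_⟩
      · rw [hx 0, Fin.cons_zero, ← pow_mul, h6]
      · rw [hx i.succ, Fin.cons_succ, one_pow]
      · rw [hp, Fin.prod_univ_succ]
        simp

open Classical in
/-- the two bounds together -/
theorem combine (k : ℕ) (R : ℕ → Set ℕ) (T : ∀ w : ℕ, Set (Fin (k + 1) → ZMod w))
    (P : ∀ w : ℕ, ZMod (w ^ 2) → Prop) (B₁ : ℕ)
    (hR : ∀ B, B₁ ≤ B → ∀ w ∈ R B, w.Prime ∧ B < w ∧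
      ∃ y z : ZMod (w ^ 2), ∀ x, P w x → x = y ∨ x = z)
    (hT : ∀ B, B₁ ≤ B → ∀ ε : ℝ, 0 < ε → ∃ F : Finset ℕ, (∀ w ∈ F, w ∈ R B) ∧
      ∃ X₀ : ℕ, ∀ X : ℕ, X₀ ≤ X →
        (((LL (k + 1) X).filter (fun l => ∀ w ∈ F, (fun i => (l i : ZMod w)) ∉ T w)).card : ℝ)
        ≤ ε * NN (k + 1) X) (Bad : ℕ → Prop)
    (hbad : ∀ w ∈ R B₁, ∀ l : Fin (k + 1) → ℕ, (∀ i, (l i).Prime) →
      (fun i => (l i : ZMod w)) ∈ T w → ¬ P w ((∏ i, l i : ℕ) : ZMod (w ^ 2)) → ¬ Bad (∏ i, l i))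
    (hmono : ∀ B, B₁ ≤ B → R B ⊆ R B₁) (ε : ℝ) (hε : 0 < ε) :
    ∃ X₀ : ℕ, ∀ X : ℕ, X₀ ≤ X →
      (((LL (k + 1) X).filter (fun l => Bad (∏ i, l i))).card : ℝ) ≤ ε * NN (k + 1) X := by
  obtain ⟨B₀, hB₀⟩ := union_sq k P (ε / 2) (by positivity)
  obtain ⟨F, hF, X₁, hX₁⟩ := hT (max B₀ B₁) (le_max_right _ _) (ε / 2) (by positivity)
  obtain ⟨X₂, hX₂⟩ := hB₀ F (fun w hw => by
    obtain ⟨h1, h2, h3⟩ := hR (max B₀ B₁) (le_max_right _ _) w (hF w hw)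
    exact ⟨h1, lt_of_le_of_lt (le_max_left _ _) h2, h3⟩)
  refine ⟨max X₁ X₂, fun X hX => ?_⟩
  have h1 := hX₁ X (le_of_max_le_left hX)
  have h2 := hX₂ X (le_of_max_le_right hX)
  have hsub : (LL (k + 1) X).filter (fun l => Bad (∏ i, l i)) ⊆
      (LL (k + 1) X).filter (fun l => ∀ w ∈ F, (fun i => (l i : ZMod w)) ∉ T w) ∪
      (LL (k + 1) X).filter (fun l => ∃ w ∈ F, P w ((∏ i, l i : ℕ) : ZMod (w ^ 2))) := by
    intro l hl
    rw [mem_filter] at hl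
    rw [mem_union, mem_filter, mem_filter]
    by_contra hcon
    push Not at hcon
    obtain ⟨w, hw, e₁⟩ := hcon.1 hl.1
    have e₂ := hcon.2 hl.1 w hw
    exact hbad w (hmono _ (le_max_right _ _) (hF w hw)) l (mem_LL.1 hl.1).1 e₁ e₂ hl.2
  have h3 := (card_le_card hsub).trans (card_union_le _ _)
  have h4 := (Nat.cast_le (α := ℝ)).2 h3
  rw [Nat.cast_add] at h4
  linarith

theorem main3 (lam j : ℕ) (hlam : 2 ≤ lam) (hj : 1 ≤ j) :
    Tendsto (fun X : ℕ =>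
      (({N : ℕ | N ≤ X ∧ N.primeFactorsList.length = j ∧ HasTrans lam N} : Set ℕ).ncard : ℝ) /
      (({N : ℕ | N ≤ X ∧ N.primeFactorsList.length = j} : Set ℕ).ncard : ℝ)) atTop (𝓝 0) := by
  classical
  obtain ⟨s, hs, hdiv⟩ := exists_diverges lam hlam
  obtain ⟨k, rfl⟩ : ∃ k, j = k + 1 := ⟨j - 1, by omega⟩
  refine density_of_tuples (by omega) _ fun ε hε => ?_
  refine combine k (fun B => RR s lam B) (T1 s k lam) (PH lam) (4 * lam + 2) ?_ ?_
    (HasTrans lam) ?_ ?_ ε hε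
  · intro B hB w hw
    exact ⟨hw.1, hw.2.1, ph_roots lam w hw.1 (by have := hw.2.1; omega) (by omega)⟩
  · intro B hB ε' hε'
    obtain ⟨F, hF, X₀, hX₀⟩ := avoid1' s k lam B (by omega) (hdiv B) ε' hε'
    refine ⟨F, hF, X₀, fun X hX => le_trans ?_ (hX₀ X hX)⟩
    norm_cast
  · rintro w hw l hl hT hP ⟨v, B, H, hv, hd⟩
    obtain ⟨a1, a2, a3, -⟩ := rr_facts (rr_mono (by omega : lam + 2 ≤ 4 * lam + 2) hw)
    exact excl_trans a1 a2 (by omega) a3 l hl hT hP hd hv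
  · intro B hB
    exact rr_mono hB

/-! ### Hadamard designs -/

/-- local conditions for Hadamard designs -/
def TH (k : ℕ) (w : ℕ) : Set (Fin (k + 1) → ZMod w) :=
  {x | ∃ b : ℕ, Odd b ∧ w = 2 ^ 3 * b + 1 ∧ x 0 ^ b = -1 ∧
    (∀ i : Fin k, x i.succ ^ b = 1) ∧ 4 * ∏ i, x i = 1}

/-- `w ^ 2 ∣ 4 x - 1` -/
def PD (w : ℕ) (x : ZMod (w ^ 2)) : Prop := 4 * x = 1

theorem pd_roots (w : ℕ) (_hw : w.Prime) (_hw2 : w ≠ 2) :
    ∃ y z : ZMod (w ^ 2), ∀ x, PD w x → x = y ∨ x = z := by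
  by_cases hex : ∃ y, PD w y
  · obtain ⟨y, hy⟩ := hex
    refine ⟨y, y, fun x hx => Or.inl ?_⟩
    unfold PD at hx hy
    linear_combination y * hx - x * hy
  · exact ⟨0, 0, fun x hx => absurd ⟨x, hx⟩ hex⟩

theorem avoidD (k B : ℕ) (ε : ℝ) (hε : 0 < ε) :
    ∃ F : Finset ℕ, (∀ w ∈ F, w ∈ RD B) ∧ ∃ X₀ : ℕ, ∀ X : ℕ, X₀ ≤ X →
      (open Classical in
        (((LL (k + 1) X).filter (fun l => ∀ w ∈ F, (fun i => (l i : ZMod w)) ∉ TH k w)).card : ℝ))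
        ≤ ε * NN (k + 1) X := by
  refine tup_gen 3 k (RD B) ?_ (rd_diverges B) (TH k) ?_ ?_ ε hε
  · intro w hw
    obtain ⟨h1, -, h2, b, h3, h4, -⟩ := rd_facts hw
    exact ⟨h1, h2, b, h3.pos, h4⟩
  · rintro w hw x ⟨b, hb, hwb, h0, h1, -⟩ i
    have : Fact w.Prime := ⟨hw.1⟩
    have hb0 := hb.pos.ne'
    revert i
    refine Fin.cases ?_ (fun i => ?_)
    · exact ne_zero_of_pow hb0 (neg_ne_zero.2 one_ne_zero) h0
    · exact ne_zero_of_pow hb0 one_ne_zero (h1 i)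
  · intro w hw
    obtain ⟨h1, -, h2, b, h3, h4, h5⟩ := rd_facts hw
    have : Fact w.Prime := ⟨h1⟩
    have h40 : (4 : ZMod w) ≠ 0 := ne_zero_of_pow h3.pos.ne' (neg_ne_zero.2 one_ne_zero) h5
    refine ⟨b, h3.pos, h4, Fin.cons (4⁻¹) (fun _ => 1), ?_, ?_⟩
    · refine Fin.cases ?_ (fun i => ?_)
      · rw [Fin.cons_zero]
        exact inv_ne_zero h40
      · simp
    · intro x hx hp
      refine ⟨b, h3, h4, ?_, fun i => ?_, ?_⟩
      · rw [hx 0, Fin.cons_zero, inv_pow, h5, inv_neg, inv_one]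
      · rw [hx i.succ, Fin.cons_succ, one_pow]
      · rw [hp, Fin.prod_univ_succ]
        simp only [Fin.cons_zero, Fin.cons_succ, prod_const_one, mul_one]
        exact mul_inv_cancel₀ h40

theorem excl_had {k w : ℕ} (hw : w.Prime) (hw2 : w ≠ 2)
    (l : Fin (k + 1) → ℕ) (hl : ∀ i, (l i).Prime)
    (h : (fun i => (l i : ZMod w)) ∈ TH k w)
    (hP : ¬ PD w ((∏ i, l i : ℕ) : ZMod (w ^ 2)))
    (n : ℕ) (hnn : n = ∏ i, l i) {B : Fin (4 * n - 1) → Finset (Fin (4 * n - 1))}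
    {H : Subgroup (Equiv.Perm (Fin (4 * n - 1)))}
    (hd : TransDesign (4 * n - 1) (2 * n - 1) (n - 1) B H) (hn2 : 2 ≤ n) : False := by
  have hwf : Fact w.Prime := ⟨hw⟩
  obtain ⟨b, hb, hwb, h0, h1, hprod⟩ := h
  have hneg := neg_ne hw hw2
  have hnd : ¬ l 0 ∣ ∏ i : Fin k, l i.succ := by
    intro hd
    obtain ⟨i, -, hi⟩ := (Prime.dvd_finsetProd_iff (hl 0).prime _).1 hd
    have h4 := (Nat.prime_dvd_prime_iff_eq (hl 0) (hl i.succ)).1 hi
    apply hneg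
    have e0 : (l 0 : ZMod w) ^ b = -1 := h0
    have e1 : (l i.succ : ZMod w) ^ b = 1 := h1 i
    rw [← e0, ← e1, h4]
  obtain ⟨he1, he2⟩ := exact_dvd l hl hnd
  have hn4 : (4 * n : ZMod w) = 1 := by
    rw [hnn]
    push_cast
    exact hprod
  rw [← hnn] at he1 he2 hP
  have hwv : w ∣ 4 * n - 1 := by
    rw [← ZMod.natCast_eq_zero_iff, Nat.cast_sub (by omega)]
    push_cast
    rw [hn4, sub_self]
  have hwv2 : ¬ w ^ 2 ∣ 4 * n - 1 := by
    intro hdv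
    apply hP
    rw [← ZMod.natCast_eq_zero_iff, Nat.cast_sub (by omega)] at hdv
    push_cast at hdv
    unfold PD
    linear_combination hdv
  have hkl : 2 * n - 1 - (n - 1) = n := by omega
  exact test_trans' hd (by omega) (by omega) ⟨2 * n - 1, by omega⟩ (hl 0) hw hw2 hwv hwv2 (j := b)
    (by rw [hkl]; exact he1) (by rw [hkl]; exact he2) h0

theorem excl_hadD {k w : ℕ} (hw : w.Prime) (hw2 : w ≠ 2)
    (l : Fin (k + 1) → ℕ) (hl : ∀ i, (l i).Prime)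
    (h : (fun i => (l i : ZMod w)) ∈ TH k w)
    (n : ℕ) (hnn : n = ∏ i, l i) (hn2 : 2 ≤ n)
    {G : Type} [Group G] [Fintype G] [DecidableEq G] (D : Finset G)
    (hk : D.card = 2 * n - 1)
    (hD : ∀ g : G, g ≠ 1 → ((D ×ˢ D).filter (fun p : G × G => p.1 * p.2⁻¹ = g)).card = n - 1) :
    False := by
  have hwf : Fact w.Prime := ⟨hw⟩
  obtain ⟨b, hb, hwb, h0, h1, hprod⟩ := h
  have hneg := neg_ne hw hw2
  have hnd : ¬ l 0 ∣ ∏ i : Fin k, l i.succ := by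
    intro hd
    obtain ⟨i, -, hi⟩ := (Prime.dvd_finsetProd_iff (hl 0).prime _).1 hd
    have h4 := (Nat.prime_dvd_prime_iff_eq (hl 0) (hl i.succ)).1 hi
    apply hneg
    have e0 : (l 0 : ZMod w) ^ b = -1 := h0
    have e1 : (l i.succ : ZMod w) ^ b = 1 := h1 i
    rw [← e0, ← e1, h4]
  have hn4 : (4 * n : ZMod w) = 1 := by
    rw [hnn]
    push_cast
    exact hprod
  have hcount := Pool.Agent.H951R4.OD.ds_count D (2 * n - 1) (n - 1) hk hD
  have hcard : Fintype.card G = 4 * n - 1 := by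
    have hpos : 1 ≤ Fintype.card G := Fintype.card_pos
    obtain ⟨u, hu⟩ : ∃ u, Fintype.card G = u + 1 := ⟨Fintype.card G - 1, by omega⟩
    obtain ⟨m, rfl⟩ : ∃ m, n = m + 2 := ⟨n - 2, by omega⟩
    rw [hu] at hcount ⊢
    simp only [show 2 * (m + 2) - 1 = 2 * m + 3 by omega, show m + 2 - 1 = m + 1 by omega,
      Nat.add_sub_cancel] at hcount
    have h5 : (m + 1) * (2 * (2 * m + 3)) = (m + 1) * u := by nlinarith
    have h6 := Nat.eq_of_mul_eq_mul_left (by omega) h5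
    omega
  have hwv : w ∣ Fintype.card G := by
    rw [hcard, ← ZMod.natCast_eq_zero_iff, Nat.cast_sub (by omega)]
    push_cast
    rw [hn4, sub_self]
  have hodd : Odd (Fintype.card G) := by
    rw [hcard]
    exact ⟨2 * n - 1, by omega⟩
  refine no_difference_set D (2 * n - 1) (n - 1) hk hD hodd hw hwv (hl 0) (j := b) h0 (a := 1)
    odd_one (u := ((∏ i : Fin k, l i.succ : ℕ) : ℤ)) ?_ ?_
  · intro hd
    exact hnd (by exact_mod_cast hd)
  · have h5 : n = l 0 * ∏ i : Fin k, l i.succ := by rw [hnn, Fin.prod_univ_succ]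
    rw [Nat.cast_sub (by omega), Nat.cast_sub (by omega), pow_one]
    have h6 : ((n : ℕ) : ℤ) = (l 0 : ℤ) * ((∏ i : Fin k, l i.succ : ℕ) : ℤ) := by
      exact_mod_cast h5
    push_cast at h6 ⊢
    linarith

/-- a symmetric `(4 n - 1, 2 n - 1, n - 1)` design with a solvable point-transitive group, or a
difference set with these parameters in some group -/
def HasHad (n : ℕ) : Prop :=
  2 ≤ n ∧ ((∃ (B : Fin (4 * n - 1) → Finset (Fin (4 * n - 1)))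
      (H : Subgroup (Equiv.Perm (Fin (4 * n - 1)))),
      TransDesign (4 * n - 1) (2 * n - 1) (n - 1) B H) ∨
    ∃ (G : Type) (_ : Group G) (_ : Fintype G) (_ : DecidableEq G) (D : Finset G),
      D.card = 2 * n - 1 ∧
      ∀ g : G, g ≠ 1 → ((D ×ˢ D).filter (fun p : G × G => p.1 * p.2⁻¹ = g)).card = n - 1)

theorem main4 (j : ℕ) (hj : 1 ≤ j) :
    Tendsto (fun X : ℕ =>
      (({N : ℕ | N ≤ X ∧ N.primeFactorsList.length = j ∧ HasHad N} : Set ℕ).ncard : ℝ) /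
      (({N : ℕ | N ≤ X ∧ N.primeFactorsList.length = j} : Set ℕ).ncard : ℝ)) atTop (𝓝 0) := by
  classical
  obtain ⟨k, rfl⟩ : ∃ k, j = k + 1 := ⟨j - 1, by omega⟩
  refine density_of_tuples (by omega) _ fun ε hε => ?_
  refine combine k (fun B => RD B) (TH k) PD 2 ?_ ?_ HasHad ?_ ?_ ε hε
  · intro B hB w hw
    obtain ⟨h1, h2, h3, -⟩ := rd_facts hw
    exact ⟨h1, h2, pd_roots w h1 h3⟩
  · intro B hB ε' hε'
    obtain ⟨F, hF, X₀, hX₀⟩ := avoidD k B ε' hε'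
    refine ⟨F, hF, X₀, fun X hX => le_trans ?_ (hX₀ X hX)⟩
    norm_cast
  · rintro w hw l hl hT hP ⟨hn2, ⟨B, H, hd⟩ | ⟨G, i1, i2, i3, D, h1, h2⟩⟩
    · obtain ⟨a1, -, a3, -⟩ := rd_facts hw
      exact excl_had a1 a3 l hl hT hP _ rfl hd hn2
    · obtain ⟨a1, -, a3, -⟩ := rd_facts hw
      exact excl_hadD a1 a3 l hl hT _ rfl hn2 D h1 h2
  · rintro B hB w ⟨h1, h2, h3⟩
    exact ⟨h1, by omega, h3⟩

end Pool.Agent.TH66.HF
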